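import Pool.Agent.SOY.YJ

/-! Project SOY (MP_66ba69_lc, the rigid step: orders with two-state cells), module YK (size 2): the solver.
-/

set_option autoImplicit false

namespace Pool.Agent.SOY

open Pool.Agent.SOC Pool.Agent.SOD Pool.Agent.SOS Pool.Agent.RUP Pool.Agent.SOF Pool.Agent.SOV Pool.Agent.SOB Pool.Agent.SOX FP

variable {M : List (List Bool)} {C : List Cell} {F : List ℕ} {Q : Prm}

/-- the hypothesis of majority -/
def MajY (M : List (List Bool)) (C : List Cell) (Q : Prm) : Prop :=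
  ∀ S ∈ six (L0 C), ∀ f g h : ℕ → Bool, lvC M C Q S f = true → lvC M C Q S g = true → lvC M C Q S h = true →
    lvC M C Q S (fun v => maj (f v) (g v) (h v)) = true

theorem YK_pos (h : COk M C) (h6 : 6 ≤ (L0 C).length) : 0 < nvF M := by
  have h0 : 0 < (L0 C).length := by omega
  have := h.lt _ (List.getElem_mem h0)
  unfold nvF
  omega

theorem YK_holds {S : List ℕ} (hS : S ∈ six (L0 C)) (f : ℕ → Bool) :
    Holds f (con (allB lsc) (scC M.length C S) (lvC M C Q S)) ↔ lvC M C Q S f = true := by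
  obtain ⟨h6, -, -⟩ := mem_six.mp hS
  have hlen : (scC M.length C S).length = lsc := scC_len h6
  rw [← hlen]
  exact con_holds (fun f g h => lvC_congr h) f

/-- PROOF. con_maj (with lvC_congr and MajY), scC_len, scC_lt. -/
theorem sysC_ok (h : COk M C) (hm : MajY M C Q) : ∀ c ∈ sysC M C Q, MajC c ∧ ∀ x ∈ c.1, x < nvF M := by
  intro c hc
  obtain ⟨S, hS, rfl⟩ := List.mem_map.mp hc
  obtain ⟨h6, -, hSL⟩ := mem_six.mp hS
  have hlen : (scC M.length C S).length = lsc := scC_len h6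
  rw [← hlen]
  refine ⟨con_maj (fun f g h => lvC_congr h) (fun f g h => hm S hS f g h), ?_⟩
  exact scC_lt h hSL

/-- PROOF. solveC_some, con_holds: val u satisfies all lvC; qc_of_lvC. -/
theorem solC_some (h : COk M C) (hQ : POk C Q) (h6 : 6 ≤ (L0 C).length) (hm : MajY M C Q) {u : List ℕ}
    (hs : solC M C Q = some u) : (∃ T, QC M C Q (val u) T) ∧ ExOk Q.2.1 (val u) := by
  have h0 := YK_pos h h6
  have hss := solveC_some h0 (sysC_ok h hm) hs
  refine qc_of_lvC h hQ h6 (fun S hS => ?_)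
  exact (YK_holds hS (val u)).mp (hss _ (List.mem_map.mpr ⟨S, hS, rfl⟩))

/-- PROOF. solveC_none and con_holds: no g satisfies all lvC; lvC_of_qc. nvF M > 0 since L0 C is not empty. -/
theorem solC_none (h : COk M C) (hQ : POk C Q) (h6 : 6 ≤ (L0 C).length) (hm : MajY M C Q) (hs : solC M C Q = none) {f : ℕ → Bool}
    (he : ExOk Q.2.1 f) {T : Mem (L0 C) → Mem (L0 C) → Mem (L0 C) → Mem (L0 C) → Prop} (hT : QC M C Q f T) : False := by
  have h0 := YK_pos h h6
  obtain ⟨g, hg⟩ := lvC_of_qc h hQ he hT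
  refine solveC_none h0 (sysC_ok h hm) hs ⟨g, ?_⟩
  intro c hc
  obtain ⟨S, hS, rfl⟩ := List.mem_map.mp hc
  exact (YK_holds hS g).mpr (hg S hS)

/-- PROOF. qf_of_qg and val_qfC. -/
theorem val_of_qc (h : COk M C) {f : ℕ → Bool} {T : Mem (L0 C) → Mem (L0 C) → Mem (L0 C) → Mem (L0 C) → Prop}
    (hT : QC M C Q f T) (hk : Qk5 (gL M (L0 C)) (XC C f) T) : Val (gN M) (ordC C f) :=
  (val_qfC h f).mpr ⟨T, qf_of_qg hT hk⟩

end Pool.Agent.SOY
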