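import Pool.Agent.SOY.YC

/-! Project SOY (MP_66ba69_lc, the rigid step: orders with two-state cells), module YE (size 3): majority: the easy axioms (general form of SOX.FE, look at the proofs there).
-/

set_option autoImplicit false

namespace Pool.Agent.SOY

open Pool.Agent.SOC Pool.Agent.SOD Pool.Agent.SOS Pool.Agent.RUP Pool.Agent.SOF Pool.Agent.SOV Pool.Agent.SOB Pool.Agent.SOX FP

variable {V ι : Type} {G : SimpleGraph V} {X : (ι → Bool) → V → V → V → V → Prop} {pr T t : V → V → V → V → Prop} {E : V → V → Prop} {D : ι → Bool}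

variable {D1 D2 D3 : ι → Bool} {t1 t2 t3 : V → V → V → V → Prop}

theorem YE_mono {p1 p2 p3 q1 q2 q3 : Prop} (h1 : p1 → q1) (h2 : p2 → q2) (h3 : p3 → q3) (h : mjP p1 p2 p3) : mjP q1 q2 q3 := by
  rcases h with ⟨a, b⟩ | ⟨a, b⟩ | ⟨a, b⟩
  · exact Or.inl ⟨h1 a, h2 b⟩
  · exact Or.inr (Or.inl ⟨h1 a, h3 b⟩)
  · exact Or.inr (Or.inr ⟨h2 a, h3 b⟩)

theorem mT_sy (h1 : Sy t1) (h2 : Sy t2) (h3 : Sy t3) : Sy (mT t1 t2 t3) :=
  ⟨fun a b c d => YE_mono (h1.1 a b c d) (h2.1 a b c d) (h3.1 a b c d),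
    fun a b c d => YE_mono (h1.2 a b c d) (h2.2 a b c d) (h3.2 a b c d)⟩

theorem YE_sr {Y : V → V → V → V → Prop} (h : Sepr Y) {a b c d : V} : Y a b c d ↔ Y a b d c :=
  ⟨fun k => h.comm (h.swap (h.comm k)), fun k => h.comm (h.swap (h.comm k))⟩

theorem YE_ex2 (h : Flp X pr E) {a b c d : V} (k : pr a b c d) : ¬ pr a d b c :=
  h.ex (h.sw2 (h.sw1 (h.sw2 k)))

theorem YE_dec (h : Flp X pr E) {D : ι → Bool} {t : V → V → V → V → Prop} {a b c d : V}
    (hn : pr a b c d ∨ (¬ pr a c b d ∧ ¬ pr a d b c)) (hk : K4 G a b c d) :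
    Dec G (X D) pr t a b c d ↔ ¬ X D a b c d ∧ t a b c d := by
  have hk0 := hk
  obtain ⟨ab, ac, ad, bc, bd, cd⟩ := hk
  constructor
  · intro k
    refine ⟨k.nc, ?_⟩
    by_cases hp : pr a b c d
    · exact k.one hk0 hp
    · rcases hn with hn | hn
      · exact absurd hn hp
      · exact k.non hk0 hp hn.1 hn.2
  · rintro ⟨k1, k2⟩
    have n2 : ¬ pr a c b d := by
      rcases hn with hn | hn
      · exact h.ex hn
      · exact hn.1
    have n3 : ¬ pr a d b c := by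
      rcases hn with hn | hn
      · exact YE_ex2 h hn
      · exact hn.2
    exact ⟨ab.ne, cd.ne, ⟨ac, ad, bc, bd⟩, k1, fun _ _ => k2, fun _ e => absurd e n2, fun _ e => absurd e n3, fun _ _ _ _ => k2⟩

/-- PROOF. If none of the three pairings is designated: h.free: all crossing relations agree on a b c d (both directions). If pr a b c d: all are false (h.nc). Not K4: dec_nk4 for all, the four statements are equivalent. K4: pr a b c d: then not pr a c b d, not pr a d b c (h.ex): Dec ↔ (ab, cd, sq, nc) and t. None designated: the same with the field non. -/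
theorem dec_maj (h : Flp X pr E) {a b c d : V} (hn : pr a b c d ∨ (¬ pr a c b d ∧ ¬ pr a d b c)) :
    Dec G (X (mD D1 D2 D3)) pr (mT t1 t2 t3) a b c d ↔
      mjP (Dec G (X D1) pr t1 a b c d) (Dec G (X D2) pr t2 a b c d) (Dec G (X D3) pr t3 a b c d) := by
  obtain ⟨Fx, hF⟩ : ∃ Fx : Prop, ∀ D : ι → Bool, (X D a b c d ↔ Fx) := by
    by_cases hp : pr a b c d
    · exact ⟨False, fun D => iff_false_intro (h.nc hp D)⟩
    · rcases hn with hn | hn
      · exact absurd hn hp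
      · exact ⟨X D1 a b c d, fun D => ⟨fun k => h.free hp hn.1 hn.2 k, fun k => h.free hp hn.1 hn.2 k⟩⟩
  by_cases hk : K4 G a b c d
  · rw [YE_dec h hn hk, YE_dec h hn hk, YE_dec h hn hk, YE_dec h hn hk, hF, hF D1, hF D2, hF D3]
    unfold mT mjP
    tauto
  · rw [dec_nk4 hk, dec_nk4 hk, dec_nk4 hk, dec_nk4 hk, hF, hF D1, hF D2, hF D3]
    unfold mjP
    tauto

theorem YE_k4 {G : SimpleGraph V} {a b c d : V} (hk : K4 G a d b c) : K4 G a b c d :=
  ⟨hk.2.1, hk.2.2.1, hk.1, hk.2.2.2.2.2, hk.2.2.2.1.symm, hk.2.2.2.2.1.symm⟩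

/-- PROOF. swap₁, swap₂: dec_sw1, dec_sw2 (mT_sy). ne = Dec.ab, adj from sq, nocross = Dec.nc. some: let X mD a c b d with the edges ac, bd. The points are different. If not K4: h.mj for (a, c, b, d): X D_i a c b d for some i, q_i.some: Dec_i a b c d or Dec_i a d b c: its sq; the pairings ab | cd, ad | bc do not cross (amo etc.), dec_nk4. If K4 and pr a b c d or pr a d b c: dec_flip (tauto). pr a c b d is impossible (h.nc). If K4 and no designated pairing: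
all X are the same (h.free), q_i.some for the three i: two of the three i give the same one: dec_maj. notboth: Dec a b c d and Dec a d b c: sq of both gives K4; the chords ac | bd cross (the other two do not, one); designated: dec_flip. Not designated: dec_maj: two of the i have Dec_i a b c d, two have Dec_i a d b c, so one i has both: q_i.notboth. -/
theorem maj_b (h : Flp X pr E) (s1 : Sy t1) (s2 : Sy t2) (s3 : Sy t3) {S : V → Prop}
    (q1 : Qb G (X D1) (Dec G (X D1) pr t1) S) (q2 : Qb G (X D2) (Dec G (X D2) pr t2) S) (q3 : Qb G (X D3) (Dec G (X D3) pr t3) S) :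
    Qb G (X (mD D1 D2 D3)) (Dec G (X (mD D1 D2 D3)) pr (mT t1 t2 t3)) S := by
  have sm := mT_sy s1 s2 s3
  have pm := h.sep (mD D1 D2 D3)
  refine ⟨fun _ _ _ _ k => dec_sw1 h sm k, fun _ _ _ _ k => dec_sw2 h sm k, fun _ _ _ _ k => k.ab,
    fun _ _ _ _ k => k.sq.1, fun _ _ _ _ k => k.nc, ?_, ?_⟩
  · intro a b c d Sa Sb Sc Sd ac bd ab ad bc cd hX
    have n1 : ¬ X (mD D1 D2 D3) a b c d := fun k => pm.amo k hX
    have n2 : ¬ X (mD D1 D2 D3) a d b c := fun k => pm.amo ((YE_sr pm).1 k) ((YE_sr pm).1 hX)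
    by_cases hk : K4 G a b c d
    · have np1 : ¬ pr a c b d := fun e => h.nc e _ hX
      by_cases hn : pr a b c d ∨ pr a d b c
      · have k := dec_flip h sm hk hX hn
        tauto
      · push Not at hn
        have hX1 : ∀ D, X D a c b d := fun D => h.free np1 hn.1 (fun e => hn.2 (h.sw2 (h.sw1 (h.sw2 e)))) hX
        have r1 := q1.some Sa Sb Sc Sd ac bd ab ad bc cd (hX1 D1)
        have r2 := q2.some Sa Sb Sc Sd ac bd ab ad bc cd (hX1 D2)
        have r3 := q3.some Sa Sb Sc Sd ac bd ab ad bc cd (hX1 D3)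
        rw [dec_maj h (Or.inr ⟨np1, hn.2⟩), dec_maj h (a := a) (b := d) (c := b) (d := c)
          (Or.inr ⟨fun e => hn.1 (h.sw2 (h.sw1 (h.sw2 e))), fun e => np1 (h.sw2 (h.sw1 (h.sw2 e)))⟩)]
        unfold mjP
        tauto
    · have key : ∀ (D : ι → Bool) (t : V → V → V → V → Prop),
          (Dec G (X D) pr t a b c d ∨ Dec G (X D) pr t a d b c) →
          (Dec G (X (mD D1 D2 D3)) pr (mT t1 t2 t3) a b c d ∨ Dec G (X (mD D1 D2 D3)) pr (mT t1 t2 t3) a d b c) := by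
        rintro D t (k | k)
        · exact Or.inl ((dec_nk4 hk).2 ⟨ab, cd, k.sq, n1⟩)
        · have hk' : ¬ K4 G a d b c := fun e => hk (YE_k4 e)
          exact Or.inr ((dec_nk4 hk').2 ⟨ad, bc, k.sq, n2⟩)
      rcases h.mj D1 D2 D3 a c b d with k | k | k
      · exact key _ _ (q1.some Sa Sb Sc Sd ac bd ab ad bc cd (k.1 hX))
      · exact key _ _ (q2.some Sa Sb Sc Sd ac bd ab ad bc cd (k.1 hX))
      · exact key _ _ (q3.some Sa Sb Sc Sd ac bd ab ad bc cd (k.1 hX))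
  · intro a b c d Sa Sb Sc Sd k1 k2
    obtain ⟨ac, ad, bc, bd⟩ := k1.sq
    obtain ⟨ab, _, db, dc⟩ := k2.sq
    have hk : K4 G a b c d := ⟨ab, ac, ad, bc, bd, dc.symm⟩
    have hX : X (mD D1 D2 D3) a c b d := by
      rcases pm.one ab.ne ac.ne ad.ne bc.ne bd.ne dc.ne.symm with e | e | e
      · exact absurd e k1.nc
      · exact e
      · exact absurd e k2.nc
    have np1 : ¬ pr a c b d := fun e => h.nc e _ hX
    by_cases hn : pr a b c d ∨ pr a d b c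
    · exact (dec_flip h sm hk hX hn).1 k1 k2
    · push Not at hn
      rw [dec_maj h (Or.inr ⟨np1, hn.2⟩)] at k1
      rw [dec_maj h (a := a) (b := d) (c := b) (d := c)
          (Or.inr ⟨fun e => hn.1 (h.sw2 (h.sw1 (h.sw2 e))), fun e => np1 (h.sw2 (h.sw1 (h.sw2 e)))⟩)] at k2
      have r1 := fun k => q1.notboth (a := a) (b := b) (c := c) (d := d) Sa Sb Sc Sd k
      have r2 := fun k => q2.notboth (a := a) (b := b) (c := c) (d := d) Sa Sb Sc Sd k
      have r3 := fun k => q3.notboth (a := a) (b := b) (c := c) (d := d) Sa Sb Sc Sd k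
      unfold mjP at k1 k2
      tauto

theorem YE_np (h : Flp X pr E) {a b c d : V} (e1 : ¬ E a b) (e2 : ¬ E a c) (e3 : ¬ E a d) (e4 : ¬ E b c) (e5 : ¬ E b d)
    (e6 : ¬ E c d) : ¬ pr a b c d := by
  intro k
  rcases h.prE k with e | e | e | e | e | e
  · exact e1 e
  · exact e2 e
  · exact e3 e
  · exact e4 e
  · exact e5 e
  · exact e6 e

/-- PROOF. N5: no designated pairings among the five points (h.prE), so all crossing relations are the same on them (h.free) and dec_maj holds: two of the three Dec_i a b c d are true, k_i gives Dec_i a b c x. -/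
theorem maj_k (h : Flp X pr E) {S : V → Prop} (k1 : Qk G (X D1) (Dec G (X D1) pr t1) E S) (k2 : Qk G (X D2) (Dec G (X D2) pr t2) E S)
    (k3 : Qk G (X D3) (Dec G (X D3) pr t3) E S) : Qk G (X (mD D1 D2 D3)) (Dec G (X (mD D1 D2 D3)) pr (mT t1 t2 t3)) E S := by
  intro a b c d x Sa Sb Sc Sd Sx hk hn hx1 hx2 ht
  have hn0 := hn
  obtain ⟨ab, ac, ad, ax, bc, bd, bx, cd, cx, dx⟩ := hn
  have sy : ∀ {p q : V}, ¬ E p q → ¬ E q p := fun e k => e (h.esy k)
  have hX1 : ∀ D, X D x a c d := fun D => h.free (YE_np h (sy ax) (sy cx) (sy dx) ac ad cd)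
    (YE_np h (sy cx) (sy ax) (sy dx) (sy ac) cd ad) (YE_np h (sy dx) (sy ax) (sy cx) (sy ad) (sy cd) ac) hx1
  have hX2 : ∀ D, X D x b c d := fun D => h.free (YE_np h (sy bx) (sy cx) (sy dx) bc bd cd)
    (YE_np h (sy cx) (sy bx) (sy dx) (sy bc) cd bd) (YE_np h (sy dx) (sy bx) (sy cx) (sy bd) (sy cd) bc) hx2
  rw [dec_maj h (Or.inr ⟨YE_np h ac ab ad (sy bc) cd bd, YE_np h ad ab ac (sy bd) (sy cd) bc⟩)] at ht
  rw [dec_maj h (Or.inr ⟨YE_np h ac ab ax (sy bc) cx bx, YE_np h ax ab ac (sy bx) (sy cx) bc⟩)]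
  exact YE_mono (k1 Sa Sb Sc Sd Sx hk hn0 (hX1 D1) (hX2 D1)) (k2 Sa Sb Sc Sd Sx hk hn0 (hX1 D2) (hX2 D2))
    (k3 Sa Sb Sc Sd Sx hk hn0 (hX1 D3) (hX2 D3)) ht

/-- PROOF. dec_maj for the prescribed quartets (hypothesis h1, h0). -/
theorem maj_u (h : Flp X pr E) {U1 U0 : V → V → V → V → Prop} (h1 : ∀ a b c d, U1 a b c d → pr a b c d ∨ (¬ pr a c b d ∧ ¬ pr a d b c))
    (h0 : ∀ a b c d, U0 a b c d → pr a b c d ∨ (¬ pr a c b d ∧ ¬ pr a d b c)) {S : V → Prop}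
    (u1 : Un (Dec G (X D1) pr t1) U1 U0 S) (u2 : Un (Dec G (X D2) pr t2) U1 U0 S) (u3 : Un (Dec G (X D3) pr t3) U1 U0 S) :
    Un (Dec G (X (mD D1 D2 D3)) pr (mT t1 t2 t3)) U1 U0 S := by
  constructor
  · intro a b c d Sa Sb Sc Sd hu
    rw [dec_maj h (h1 a b c d hu)]
    exact Or.inl ⟨u1.un1 Sa Sb Sc Sd hu, u2.un1 Sa Sb Sc Sd hu⟩
  · intro a b c d Sa Sb Sc Sd hu
    rw [dec_maj h (h0 a b c d hu)]
    have r1 := u1.un0 Sa Sb Sc Sd hu
    have r2 := u2.un0 Sa Sb Sc Sd hu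
    have r3 := u3.un0 Sa Sb Sc Sd hu
    unfold mjP
    tauto

theorem YE_tt (h : Flp X pr E) {D : ι → Bool} {t : V → V → V → V → Prop} {S : V → Prop} (n : Nf G (Dec G (X D) pr t) E S)
    {c c' u v w : V} (Sc : S c) (Sc' : S c') (Su : S u) (Sv : S v) (Sw : S w) (e : E c c') (e1 : ¬ E c u) (e2 : ¬ E c v)
    (e3 : ¬ E c w) (hk : K5 G c c' u v w) (k1 : K4 G c u v w) (k2 : K4 G c' u v w)
    (hn : pr c u v w ∨ (¬ pr c v u w ∧ ¬ pr c w u v)) (hX : ¬ X D c u v w) (ht : t c u v w) : t c' u v w := by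
  have e' := h.esy e
  have f1 : ¬ E c' u := fun k => e1 (h.etr e k)
  have f2 : ¬ E c' v := fun k => e2 (h.etr e k)
  have f3 : ¬ E c' w := fun k => e3 (h.etr e k)
  have hn' : pr c' u v w ∨ (¬ pr c' v u w ∧ ¬ pr c' w u v) := by
    rcases hn with hn | hn
    · exact Or.inl (h.celp e e1 e2 e3 hn)
    · exact Or.inr ⟨fun k => hn.1 (h.celp e' f2 f1 f3 k), fun k => hn.2 (h.celp e' f3 f1 f2 k)⟩
  have d1 : Dec G (X D) pr t c u v w := (YE_dec h hn k1).2 ⟨hX, ht⟩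
  exact ((YE_dec h hn' k2).1 (n Sc Sc' Su Sv Sw e e1 e2 e3 hk d1)).2

/-- PROOF. Let K5 c c' x y z, E c c', x, y, z outside the marked cell. Nf in both directions (E c' c by h.esy; K5 symmetric; ¬ E c' x from h.etr): for every i and every pairing (c u | v w), {u, v, w} = {x, y, z}: Dec_i c u v w ↔ Dec_i c' u v w. All quartets are K4. pr c u v w ↔ pr c' u v w (h.celp), X D c u v w ↔ X D c' u v w (h.cel) for all D. If pr c x y z, or none of the three pairings of c, x, y, z is designated: dec_maj for c and for c'. If pr c y x z (that is the pairing cy | xz is designated): Dec_M c x y z ↔ simple conditions and not t_M c y x z;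
t_i c y x z ↔ Dec_i c y x z (field one and the fact that a designated pairing never crosses) ↔ Dec_i c' y x z ↔ t_i c' y x z, so t_M c y x z ↔ t_M c' y x z. The same for pr c z x y. -/
theorem maj_nf (h : Flp X pr E) (s1 : Sy t1) (s2 : Sy t2) (s3 : Sy t3) {S : V → Prop}
    (n1 : Nf G (Dec G (X D1) pr t1) E S) (n2 : Nf G (Dec G (X D2) pr t2) E S) (n3 : Nf G (Dec G (X D3) pr t3) E S) :
    Nf G (Dec G (X (mD D1 D2 D3)) pr (mT t1 t2 t3)) E S := by
  intro c c' x y z Sc Sc' Sx Sy Sz e e1 e2 e3 hk hd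
  have e' := h.esy e
  have f1 : ¬ E c' x := fun k => e1 (h.etr e k)
  have f2 : ¬ E c' y := fun k => e2 (h.etr e k)
  have f3 : ¬ E c' z := fun k => e3 (h.etr e k)
  obtain ⟨g1, g2, g3, g4, g5, g6, g7, g8, g9, g10⟩ := hk
  have K5a : K5 G c c' x y z := ⟨g1, g2, g3, g4, g5, g6, g7, g8, g9, g10⟩
  have K5b : K5 G c' c x y z := ⟨g1.symm, g5, g6, g7, g2, g3, g4, g8, g9, g10⟩
  have K5c : K5 G c' c y x z := ⟨g1.symm, g6, g5, g7, g3, g2, g4, g8.symm, g10, g9⟩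
  have K5d : K5 G c' c z x y := ⟨g1.symm, g7, g5, g6, g4, g2, g3, g9.symm, g10.symm, g8⟩
  have hK : K4 G c x y z := ⟨g2, g3, g4, g8, g9, g10⟩
  have hK' : K4 G c' x y z := ⟨g5, g6, g7, g8, g9, g10⟩
  have hKy : K4 G c y x z := ⟨g3, g2, g4, g8.symm, g10, g9⟩
  have hKy' : K4 G c' y x z := ⟨g6, g5, g7, g8.symm, g10, g9⟩
  have hKz : K4 G c z x y := ⟨g4, g2, g3, g9.symm, g10.symm, g8⟩
  have hKz' : K4 G c' z x y := ⟨g7, g5, g6, g9.symm, g10.symm, g8⟩
  refine ⟨g5.ne, g10.ne, ⟨g6, g7, g8, g9⟩, fun k => hd.nc (h.cel e' f1 f2 f3 k), fun _ k => ?_, fun _ k => ?_, fun _ k => ?_,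
    fun _ k1 k2 k3 => ?_⟩
  · have k0 := h.celp e' f1 f2 f3 k
    exact YE_mono (YE_tt h n1 Sc Sc' Sx Sy Sz e e1 e2 e3 K5a hK hK' (Or.inl k0) (h.nc k0 _))
      (YE_tt h n2 Sc Sc' Sx Sy Sz e e1 e2 e3 K5a hK hK' (Or.inl k0) (h.nc k0 _))
      (YE_tt h n3 Sc Sc' Sx Sy Sz e e1 e2 e3 K5a hK hK' (Or.inl k0) (h.nc k0 _)) (hd.one hK k0)
  · intro ht
    refine hd.two hK (h.celp e' f2 f1 f3 k) ?_
    exact YE_mono (YE_tt h n1 Sc' Sc Sy Sx Sz e' f2 f1 f3 K5c hKy' hKy (Or.inl k) (h.nc k _))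
      (YE_tt h n2 Sc' Sc Sy Sx Sz e' f2 f1 f3 K5c hKy' hKy (Or.inl k) (h.nc k _))
      (YE_tt h n3 Sc' Sc Sy Sx Sz e' f2 f1 f3 K5c hKy' hKy (Or.inl k) (h.nc k _)) ht
  · intro ht
    refine hd.thr hK (h.celp e' f3 f1 f2 k) ?_
    exact YE_mono (YE_tt h n1 Sc' Sc Sz Sx Sy e' f3 f1 f2 K5d hKz' hKz (Or.inl k) (h.nc k _))
      (YE_tt h n2 Sc' Sc Sz Sx Sy e' f3 f1 f2 K5d hKz' hKz (Or.inl k) (h.nc k _))
      (YE_tt h n3 Sc' Sc Sz Sx Sy e' f3 f1 f2 K5d hKz' hKz (Or.inl k) (h.nc k _)) ht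
  · have c1 : ¬ pr c x y z := fun q => k1 (h.celp e e1 e2 e3 q)
    have c2 : ¬ pr c y x z := fun q => k2 (h.celp e e2 e1 e3 q)
    have c3 : ¬ pr c z x y := fun q => k3 (h.celp e e3 e1 e2 q)
    have hX : ∀ D, ¬ X D c x y z := fun D q => hd.nc (h.free c1 c2 c3 q)
    exact YE_mono (YE_tt h n1 Sc Sc' Sx Sy Sz e e1 e2 e3 K5a hK hK' (Or.inr ⟨c2, c3⟩) (hX _))
      (YE_tt h n2 Sc Sc' Sx Sy Sz e e1 e2 e3 K5a hK hK' (Or.inr ⟨c2, c3⟩) (hX _))
      (YE_tt h n3 Sc Sc' Sx Sy Sz e e1 e2 e3 K5a hK hK' (Or.inr ⟨c2, c3⟩) (hX _)) (hd.non hK c1 c2 c3)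

end Pool.Agent.SOY
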