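import Pool.Agent.SOY.YI
import Pool.Agent.SOY.YE

/-! Project SOY (MP_66ba69_lc, the rigid step: orders with two-state cells), module YM (size 2): majority for the Boolean test from the theorem on structures.
-/

set_option autoImplicit false

namespace Pool.Agent.SOY

open Pool.Agent.SOC Pool.Agent.SOD Pool.Agent.SOS Pool.Agent.RUP Pool.Agent.SOF Pool.Agent.SOV Pool.Agent.SOB Pool.Agent.SOX FP

variable {M : List (List Bool)} {C : List Cell} {F : List ℕ} {Q : Prm}

/-- PROOF. Let K v := maj (f v) (g v) (h v). XC C K = XC C (mD f g h) (maj and mjB are the same function, mD f g h v = maj ..). TC M C K a b c d ↔ mT (TC M C f) (TC M C g) (TC M C h) a b c d (the inequalities are the same in all). lvC_iff for all, maj_b, hq, maj_k, maj_nf, maj_u (flp hC hQ.mark); the 2-clauses: if f, g, h satisfy (literal 1 or literal 2) each, one of the literals is satisfied by two of them, so by the majority. -/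
theorem lvC_maj (hC : COk M C) (hQ : POk C Q) {S : List ℕ} (hS : ∀ x ∈ S, x ∈ L0 C) {f g h : ℕ → Bool}
    (hf : lvC M C Q S f = true) (hg : lvC M C Q S g = true) (hh : lvC M C Q S h = true)
    (hq : Qt (gL M (L0 C)) (Dec (gL M (L0 C)) (XC C (mD f g h)) (PC C) (mT (TC M C f) (TC M C g) (TC M C h)))
      (fun x => x.1 ∈ S)) : lvC M C Q S (fun v => maj (f v) (g v) (h v)) = true := by
  have e1 : (fun v => maj (f v) (g v) (h v)) = mD f g h := rfl
  have e2 : TC M C (fun v => maj (f v) (g v) (h v)) = mT (TC M C f) (TC M C g) (TC M C h) := by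
    funext a b c d
    apply propext
    have e3 : tv M (fun v => maj (f v) (g v) (h v)) a.1 b.1 c.1 d.1 =
        maj (tv M f a.1 b.1 c.1 d.1) (tv M g a.1 b.1 c.1 d.1) (tv M h a.1 b.1 c.1 d.1) := rfl
    unfold mT mjP TC
    rw [e3]
    generalize tv M f a.1 b.1 c.1 d.1 = x
    generalize tv M g a.1 b.1 c.1 d.1 = y
    generalize tv M h a.1 b.1 c.1 d.1 = z
    cases x <;> cases y <;> cases z <;> simp [maj]
  have e4 : XC C (fun v => maj (f v) (g v) (h v)) = XC C (mD f g h) := rfl
  have hF := flp hC hQ.mark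
  obtain ⟨qf, xf⟩ := (lvC_iff hC hQ hS).mp hf
  obtain ⟨qg, xg⟩ := (lvC_iff hC hQ hS).mp hg
  obtain ⟨qh, xh⟩ := (lvC_iff hC hQ hS).mp hh
  refine (lvC_iff hC hQ hS).mpr ⟨?_, ?_⟩
  · rw [e4, e2]
    exact ⟨maj_b hF (sy_C f) (sy_C g) (sy_C h) qf.b qg.b qh.b, hq, maj_k hF qf.k qg.k qh.k,
      maj_nf hF (sy_C f) (sy_C g) (sy_C h) qf.n qg.n qh.n, maj_u hF hQ.u1 hQ.u0 qf.u qg.u qh.u⟩
  · intro e he a ha b hb h1 h2
    have k1 := xf e he a ha b hb h1 h2
    have k2 := xg e he a ha b hb h1 h2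
    have k3 := xh e he a ha b hb h1 h2
    show maj (f e.1) (g e.1) (h e.1) = e.2.1 ∨ maj (f e.2.2.1) (g e.2.2.1) (h e.2.2.1) = e.2.2.2
    revert k1 k2 k3
    generalize f e.1 = x1
    generalize g e.1 = x2
    generalize h e.1 = x3
    generalize f e.2.2.1 = y1
    generalize g e.2.2.1 = y2
    generalize h e.2.2.1 = y3
    generalize e.2.1 = u
    generalize e.2.2.2 = v
    cases x1 <;> cases x2 <;> cases x3 <;> cases y1 <;> cases y2 <;> cases y3 <;> cases u <;> cases v <;> simp [maj]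

end Pool.Agent.SOY
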