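import Pool.Agent.SOY.YO

/-! Project SOY (MP_66ba69_lc, the rigid step: orders with two-state cells), module YF (size 4): the crossing relations of two-state cells.
-/

set_option autoImplicit false

namespace Pool.Agent.SOY

open Pool.Agent.SOC Pool.Agent.SOD Pool.Agent.SOS Pool.Agent.RUP Pool.Agent.SOF Pool.Agent.SOV Pool.Agent.SOB Pool.Agent.SOX FP

variable {M : List (List Bool)} {C : List Cell} {F : List ℕ} {Q : Prm}

theorem YF_lt {f g : ℕ → Bool} {p q : ℕ} (h : ceN C p = ceN C q → f (ceN C p) = g (ceN C p)) :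
    ltC C f p q = ltC C g p q := by
  unfold ltC
  by_cases e : ceN C p = ceN C q
  · rw [h e]
  · have e2 : decide (ceN C p = ceN C q) = false := decide_eq_false e
    rw [e2, Bool.false_and, Bool.false_and]

theorem YF_cr {f g : ℕ → Bool} {a b c d : ℕ} (h1 : ceN C a = ceN C c → f (ceN C a) = g (ceN C a))
    (h2 : ceN C a = ceN C d → f (ceN C a) = g (ceN C a)) (h3 : ceN C b = ceN C c → f (ceN C b) = g (ceN C b))
    (h4 : ceN C b = ceN C d → f (ceN C b) = g (ceN C b)) : crC C f a b c d = crC C g a b c d := by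
  have r : ∀ {p q : ℕ}, (ceN C p = ceN C q → f (ceN C p) = g (ceN C p)) →
      (ceN C q = ceN C p → f (ceN C q) = g (ceN C q)) := by
    intro p q h e
    rw [e]
    exact h e.symm
  unfold crC bwC
  rw [YF_lt h1, YF_lt h2, YF_lt h3, YF_lt h4, YF_lt (r h1), YF_lt (r h2), YF_lt (r h3), YF_lt (r h4)]

/-- PROOF. Among the four points the relation ltC C f p q for points of different cells does not depend on f; for points of the same cell i it depends on f i only. At most two cells contain two or more of the points: choose i, j to be (the numbers of) these cells. crC is a Boolean function of the ltC C f p q, so congruence. Cases on the equalities between ceN C a, ..., ceN C d. -/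
theorem two_bits (a b c d : ℕ) : ∃ i j, ∀ f g : ℕ → Bool, f i = g i → f j = g j →
    (crC C f a b c d = crC C g a b c d ∧ crC C f a c b d = crC C g a c b d ∧ crC C f a d b c = crC C g a d b c) := by
  have key : ∃ i j, ∀ f g : ℕ → Bool, f i = g i → f j = g j →
      (ceN C a = ceN C b → f (ceN C a) = g (ceN C a)) ∧ (ceN C a = ceN C c → f (ceN C a) = g (ceN C a)) ∧
      (ceN C a = ceN C d → f (ceN C a) = g (ceN C a)) ∧ (ceN C b = ceN C c → f (ceN C b) = g (ceN C b)) ∧
      (ceN C b = ceN C d → f (ceN C b) = g (ceN C b)) ∧ (ceN C c = ceN C d → f (ceN C c) = g (ceN C c)) := by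
    by_cases e1 : ceN C a = ceN C b
    · refine ⟨ceN C a, ceN C c, fun f g h1 h2 => ⟨fun _ => h1, fun _ => h1, fun _ => h1, fun _ => ?_, fun _ => ?_, fun _ => h2⟩⟩
      · rw [← e1]; exact h1
      · rw [← e1]; exact h1
    · by_cases e2 : ceN C a = ceN C c
      · refine ⟨ceN C a, ceN C b, fun f g h1 h2 => ⟨fun _ => h1, fun _ => h1, fun _ => h1, fun _ => h2, fun _ => h2, fun _ => ?_⟩⟩
        rw [← e2]; exact h1
      · by_cases e3 : ceN C a = ceN C d
        · refine ⟨ceN C a, ceN C b, fun f g h1 h2 => ⟨fun _ => h1, fun _ => h1, fun _ => h1, fun _ => h2, fun _ => h2, fun e => ?_⟩⟩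
          rw [e, ← e3]; exact h1
        · exact ⟨ceN C b, ceN C c, fun f g h1 h2 => ⟨fun e => absurd e e1, fun e => absurd e e2, fun e => absurd e e3,
            fun _ => h1, fun _ => h1, fun _ => h2⟩⟩
  obtain ⟨i, j, h⟩ := key
  refine ⟨i, j, fun f g h1 h2 => ?_⟩
  obtain ⟨k1, k2, k3, k4, k5, k6⟩ := h f g h1 h2
  have r : ∀ {p q : ℕ}, (ceN C p = ceN C q → f (ceN C p) = g (ceN C p)) →
      (ceN C q = ceN C p → f (ceN C q) = g (ceN C q)) := by
    intro p q h e
    rw [e]
    exact h e.symm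
  exact ⟨YF_cr k2 k3 k4 k5, YF_cr k1 k3 (r k4) k6, YF_cr k1 k2 (r k5) (r k6)⟩

theorem YF_sepr (h : COk M C) (f : ℕ → Bool) : Sepr (XC C f) := by
  obtain ⟨s, hs, -, h2⟩ := ex_enum h f
  have e : XC C f = CrD s := by
    funext a b c d
    exact propext (h2 a b c d)
  rw [e]
  exact crD_sepr hs

theorem YF_sw {X : Mem (L0 C) → Mem (L0 C) → Mem (L0 C) → Mem (L0 C) → Prop} (hX : Sepr X) {a b c d : Mem (L0 C)}
    (h : X a b c d) : X a b d c := hX.comm (hX.swap (hX.comm h))

theorem YF_amo2 {X : Mem (L0 C) → Mem (L0 C) → Mem (L0 C) → Mem (L0 C) → Prop} (hX : Sepr X) {a b c d : Mem (L0 C)}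
    (h : X a b c d) : ¬ X a d b c := hX.amo (YF_sw hX h)

theorem YF_amo3 {X : Mem (L0 C) → Mem (L0 C) → Mem (L0 C) → Mem (L0 C) → Prop} (hX : Sepr X) {a b c d : Mem (L0 C)}
    (h : X a c b d) : ¬ X a d b c := fun h2 => hX.amo (YF_sw hX h) (YF_sw hX h2)

theorem YF_block {f : ℕ → Bool} {a b c d : ℕ} (h1 : ceN C a = ceN C b) (h2 : ceN C c = ceN C d) (h3 : ceN C a ≠ ceN C c) :
    crC C f a b c d = false := by
  have e1 : ∀ p q, ceN C p < ceN C q → ltC C f p q = true ∧ ltC C f q p = false := by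
    intro p q h
    constructor
    · unfold ltC
      rw [decide_eq_true h, Bool.true_or]
    · unfold ltC
      rw [decide_eq_false (by omega), decide_eq_false (show ¬ ceN C q = ceN C p by omega)]
      rfl
  have e2 : ∀ p q, ceN C p = ceN C a → ceN C q = ceN C c → (ltC C f p q = true ∧ ltC C f q p = false) ∨
      (ltC C f p q = false ∧ ltC C f q p = true) := by
    intro p q hp hq
    rcases Nat.lt_or_gt_of_ne h3 with h | h
    · exact Or.inl (e1 p q (by omega))
    · exact Or.inr ((e1 q p (by omega)).symm)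
  have e3 : ∀ q, ceN C q = ceN C c → bwC C f a b q = false := by
    intro q hq
    unfold bwC
    rcases Nat.lt_or_gt_of_ne h3 with h | h
    · rw [(e1 a q (by omega)).1, (e1 a q (by omega)).2, (e1 b q (by omega)).1, (e1 b q (by omega)).2]
      rfl
    · rw [(e1 q a (by omega)).1, (e1 q a (by omega)).2, (e1 q b (by omega)).1, (e1 q b (by omega)).2]
      rfl
  unfold crC
  rw [e3 c rfl, e3 d h2.symm]
  simp


/-- PROOF. If two of the points are in one cell i and the other two in another cell j, the pairing of the two pairs never crosses (ltC between the cells is constant: p < q for all p in the cell with the smaller number; then bwC of the first pair is false for both others or ... ). Otherwise at most one cell contains two or more of the points, everything depends on one state f i only; two of f, g, k agree on i, so for one of them two pairings cross: contradiction with (h.sep).amo (crossing relation of ex_enum). -/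
theorem no_three (h : COk M C) {a b c d : Mem (L0 C)} {f g k : ℕ → Bool} (h1 : XC C f a b c d) (h2 : XC C g a c b d) : ¬ XC C k a d b c := by
  intro h3
  by_cases b1 : ceN C a.1 = ceN C b.1 ∧ ceN C c.1 = ceN C d.1 ∧ ceN C a.1 ≠ ceN C c.1
  · have := YF_block (f := f) b1.1 b1.2.1 b1.2.2
    unfold XC at h1
    rw [this] at h1
    exact Bool.false_ne_true h1
  by_cases b2 : ceN C a.1 = ceN C c.1 ∧ ceN C b.1 = ceN C d.1 ∧ ceN C a.1 ≠ ceN C b.1
  · have := YF_block (f := g) b2.1 b2.2.1 b2.2.2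
    unfold XC at h2
    rw [this] at h2
    exact Bool.false_ne_true h2
  by_cases b3 : ceN C a.1 = ceN C d.1 ∧ ceN C b.1 = ceN C c.1 ∧ ceN C a.1 ≠ ceN C b.1
  · have := YF_block (f := k) b3.1 b3.2.1 b3.2.2
    unfold XC at h3
    rw [this] at h3
    exact Bool.false_ne_true h3
  have key : ∃ i, (ceN C a.1 = ceN C b.1 → ceN C a.1 = i) ∧ (ceN C a.1 = ceN C c.1 → ceN C a.1 = i) ∧
      (ceN C a.1 = ceN C d.1 → ceN C a.1 = i) ∧ (ceN C b.1 = ceN C c.1 → ceN C b.1 = i) ∧
      (ceN C b.1 = ceN C d.1 → ceN C b.1 = i) ∧ (ceN C c.1 = ceN C d.1 → ceN C c.1 = i) := by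
    by_cases e1 : ceN C a.1 = ceN C b.1 ∨ ceN C a.1 = ceN C c.1 ∨ ceN C a.1 = ceN C d.1
    · exact ⟨ceN C a.1, fun _ => rfl, fun _ => rfl, fun _ => rfl, by omega, by omega, by omega⟩
    · by_cases e2 : ceN C b.1 = ceN C c.1 ∨ ceN C b.1 = ceN C d.1
      · exact ⟨ceN C b.1, by omega, by omega, by omega, fun _ => rfl, fun _ => rfl, by omega⟩
      · exact ⟨ceN C c.1, by omega, by omega, by omega, by omega, by omega, fun _ => rfl⟩
  obtain ⟨i, k1, k2, k3, k4, k5, k6⟩ := key
  have key2 : ∀ u v : ℕ → Bool, u i = v i → (XC C u a b c d → XC C v a b c d) ∧ (XC C u a c b d → XC C v a c b d) ∧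
      (XC C u a d b c → XC C v a d b c) := by
    intro u v huv
    have m : ∀ {p q : ℕ}, (ceN C p = ceN C q → ceN C p = i) → (ceN C p = ceN C q → u (ceN C p) = v (ceN C p)) := by
      intro p q h e
      rw [h e]
      exact huv
    have m' : ∀ {p q : ℕ}, (ceN C p = ceN C q → ceN C p = i) → (ceN C q = ceN C p → u (ceN C q) = v (ceN C q)) := by
      intro p q h e
      rw [e, h e.symm]
      exact huv
    refine ⟨fun h => ?_, fun h => ?_, fun h => ?_⟩
    · unfold XC at h ⊢
      rw [← h]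
      exact (YF_cr (m k2) (m k3) (m k4) (m k5)).symm
    · unfold XC at h ⊢
      rw [← h]
      exact (YF_cr (m k1) (m k3) (m' k4) (m k6)).symm
    · unfold XC at h ⊢
      rw [← h]
      exact (YF_cr (m k1) (m k2) (m' k5) (m' k6)).symm
  have bb : f i = g i ∨ f i = k i ∨ g i = k i := by
    cases f i <;> cases g i <;> cases k i <;> simp
  rcases bb with e | e | e
  · exact (YF_sepr h g).amo ((key2 f g e).1 h1) h2
  · exact YF_amo2 (YF_sepr h k) ((key2 f k e).1 h1) h3
  · exact YF_amo3 (YF_sepr h k) ((key2 g k e).2.1 h2) h3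

theorem YF_gst (f : ℕ → Bool) (a b c d : ℕ) : ∃ u ∈ allB 4, gst C a b c u (ceN C a) = f (ceN C a) ∧
    gst C a b c u (ceN C b) = f (ceN C b) ∧ gst C a b c u (ceN C c) = f (ceN C c) ∧ gst C a b c u (ceN C d) = f (ceN C d) := by
  refine ⟨[f (ceN C a), f (ceN C b), f (ceN C c), f (ceN C d)], mem_allB.2 rfl, ?_, ?_, ?_, ?_⟩
  · unfold gst
    rw [if_pos rfl]
    rfl
  · unfold gst
    by_cases e1 : ceN C b = ceN C a
    · rw [if_pos e1, e1]
      rfl
    · rw [if_neg e1, if_pos rfl]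
      rfl
  · unfold gst
    by_cases e1 : ceN C c = ceN C a
    · rw [if_pos e1, e1]
      rfl
    · rw [if_neg e1]
      by_cases e2 : ceN C c = ceN C b
      · rw [if_pos e2, e2]
        rfl
      · rw [if_neg e2, if_pos rfl]
        rfl
  · unfold gst
    by_cases e1 : ceN C d = ceN C a
    · rw [if_pos e1, e1]
      rfl
    · rw [if_neg e1]
      by_cases e2 : ceN C d = ceN C b
      · rw [if_pos e2, e2]
        rfl
      · rw [if_neg e2]
        by_cases e3 : ceN C d = ceN C c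
        · rw [if_pos e3, e3]
          rfl
        · rw [if_neg e3]
          rfl

theorem YF_nt {b : Bool} : (!b) = true ↔ ¬ (b = true) := by
  cases b <;> simp


/-- PROOF. (allB 4) = all lists of length 4 (mem_allB); for every f there is u of length 4 with gst C a b c u = f on the cells of a, b, c, d (u = [f (ceN a), f (ceN b), f (ceN c), f (ceN d)]), and crC only depends on the states of these cells; conversely gst C a b c u is a function f. -/
theorem pc_iff {a b c d : Mem (L0 C)} : PC C a b c d ↔ (∀ f, ¬ XC C f a b c d) ∧ (∃ f, XC C f a c b d) ∧ ∃ f, ¬ XC C f a c b d := by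
  have g1 : ∀ f : ℕ → Bool, ∃ u ∈ allB 4, crC C (gst C a.1 b.1 c.1 u) a.1 b.1 c.1 d.1 = crC C f a.1 b.1 c.1 d.1 ∧
      crC C (gst C a.1 b.1 c.1 u) a.1 c.1 b.1 d.1 = crC C f a.1 c.1 b.1 d.1 := by
    intro f
    obtain ⟨u, hu, ha, hb, hc, hd⟩ := YF_gst (C := C) f a.1 b.1 c.1 d.1
    exact ⟨u, hu, YF_cr (fun _ => ha) (fun _ => ha) (fun _ => hb) (fun _ => hb),
      YF_cr (fun _ => ha) (fun _ => ha) (fun _ => hc) (fun _ => hc)⟩
  have e : PC C a b c d ↔ (∀ u ∈ allB 4, ¬ crC C (gst C a.1 b.1 c.1 u) a.1 b.1 c.1 d.1 = true) ∧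
      (∃ u ∈ allB 4, crC C (gst C a.1 b.1 c.1 u) a.1 c.1 b.1 d.1 = true) ∧
      ∃ u ∈ allB 4, ¬ crC C (gst C a.1 b.1 c.1 u) a.1 c.1 b.1 d.1 = true := by
    unfold PC prC
    rw [Bool.and_eq_true, Bool.and_eq_true, List.all_eq_true, List.any_eq_true, List.any_eq_true]
    simp only [YF_nt]
  rw [e]
  constructor
  · rintro ⟨h1, ⟨u, -, h2⟩, ⟨v, -, h3⟩⟩
    refine ⟨fun f hf => ?_, ⟨_, h2⟩, ⟨_, h3⟩⟩
    obtain ⟨w, hw, e1, -⟩ := g1 f
    exact h1 w hw (e1.trans hf)
  · rintro ⟨h1, ⟨f, h2⟩, ⟨g, h3⟩⟩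
    refine ⟨fun u _ hu => h1 _ hu, ?_, ?_⟩
    · obtain ⟨w, hw, -, e2⟩ := g1 f
      exact ⟨w, hw, e2.trans h2⟩
    · obtain ⟨w, hw, -, e2⟩ := g1 g
      exact ⟨w, hw, fun h => h3 (e2.symm.trans h)⟩


/-- PROOF. sep: ex_enum, crD_sepr (XC C f = CrD s by funext). sw2: symmetric. sw1: pr a b c d: ab | cd never crosses; the points are different (some XC C f a c b d); for b a c d we need that bc | ad crosses for some f and not for some f: for every f exactly one of ac | bd, ad | bc crosses (one, amo). ex: clear. nc: clear. free: let XC C f a b c d and suppose not XC C g a b c d; then XC C g a c b d or XC C g a d b c (one). In the first case ad | bc never crosses (no_three), ab | cd crosses for f and not for g: pc_iff: PC a d b c (the condition is about a b | d c up to symmetry), contradiction. The second case: PC a c b d.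
prE: if no two of the points are in one marked cell, then all cells containing two of the points have equal lists (hF), so crC does not depend on f, contradiction to pc_iff. mj: two_bits gives i, j; the majority of two states agrees with one of the three (cases on the six Boolean values), so crC is the same. esy, etr: equality of ceN. cel: c, c' are in the same cell, x, y, z not in it; XC C f c x y z contains that all points are different, and c' is different from x, y, z; ltC C f c p = ltC C f c' p for p in another cell. celp: pc_iff and cel in both directions for all pairings. -/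
theorem flp (h : COk M C) (hF : ∀ i, i < C.length → cst C i false ≠ cst C i true → i ∈ F) : Flp (XC C) (PC C) (EC C F) := by
  have S := fun f => YF_sepr h f
  have sw : ∀ {f : ℕ → Bool} {a b c d : Mem (L0 C)}, XC C f a b c d → XC C f a b d c := fun {f} {a b c d} hx => YF_sw (S f) hx
  have ds : ∀ {f : ℕ → Bool} {a b c d : Mem (L0 C)}, XC C f a b c d → a ≠ b ∧ a ≠ c ∧ a ≠ d ∧ b ≠ c ∧ b ≠ d ∧ c ≠ d := by
    intro f a b c d hx
    have e1 := (S f).dist hx
    have e2 := (S f).dist ((S f).swap hx)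
    have e3 := (S f).dist (sw hx)
    have e4 := (S f).dist ((S f).swap (sw hx))
    have e5 := (S f).dist ((S f).comm hx)
    exact ⟨e1.1, e1.2, e3.2, e2.2, e4.2, e5.1⟩
  have tri : ∀ {a b c d : Mem (L0 C)}, PC C a b c d → ∀ f, (XC C f a d b c ↔ ¬ XC C f a c b d) := by
    intro a b c d hp f
    obtain ⟨h1, ⟨g, h2⟩, -⟩ := pc_iff.1 hp
    obtain ⟨d1, d2, d3, d4, d5, d6⟩ := ds h2
    constructor
    · intro hx hy
      exact YF_amo3 (S f) hy hx
    · intro hy
      rcases (S f).one d2 d1 d3 d4.symm d6 d5 with hx | hx | hx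
      · exact absurd hx (h1 f)
      · exact absurd hx hy
      · exact hx
  have sw1 : ∀ {a b c d : Mem (L0 C)}, PC C a b c d → PC C b a c d := by
    intro a b c d hp
    obtain ⟨h1, ⟨g, h2⟩, ⟨k, h3⟩⟩ := pc_iff.1 hp
    refine pc_iff.2 ⟨fun f hx => h1 f ((S f).swap hx), ⟨k, ?_⟩, ⟨g, ?_⟩⟩
    · exact (S k).comm ((tri hp k).2 h3)
    · intro hx
      exact (tri hp g).1 ((S g).comm hx) h2
  have sw2 : ∀ {a b c d : Mem (L0 C)}, PC C a b c d → PC C c d a b := by
    intro a b c d hp
    obtain ⟨h1, ⟨g, h2⟩, ⟨k, h3⟩⟩ := pc_iff.1 hp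
    refine pc_iff.2 ⟨fun f hx => h1 f ((S f).comm hx), ⟨g, ?_⟩, ⟨k, ?_⟩⟩
    · exact sw ((S g).swap h2)
    · intro hx
      exact h3 (sw ((S k).swap hx))
  have eE : ∀ {a b : Mem (L0 C)}, EC C F a b ↔ ceN C a.1 = ceN C b.1 ∧ ceN C a.1 ∈ F := by
    intro a b
    unfold EC eB
    rw [Bool.and_eq_true, decide_eq_true_eq, decide_eq_true_eq]
  have ceL : ∀ a : Mem (L0 C), ceN C a.1 < C.length := fun a => (ce_mem h a.2).1
  have cel : ∀ {c c' x y z : Mem (L0 C)}, EC C F c c' → ¬ EC C F c x → ¬ EC C F c y → ¬ EC C F c z → ∀ {D},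
      XC C D c x y z → XC C D c' x y z := by
    intro c c' x y z h1 h2 h3 h4 D hx
    have e1 := eE.1 h1
    have e2 : ceN C c.1 ≠ ceN C x.1 := fun e => h2 (eE.2 ⟨e, e1.2⟩)
    have e3 : ceN C c.1 ≠ ceN C y.1 := fun e => h3 (eE.2 ⟨e, e1.2⟩)
    have e4 : ceN C c.1 ≠ ceN C z.1 := fun e => h4 (eE.2 ⟨e, e1.2⟩)
    obtain ⟨d1, d2, d3, d4, d5, d6⟩ := ds hx
    have f1 : ∀ p : ℕ, ceN C c.1 ≠ ceN C p → ltC C D c.1 p = ltC C D c'.1 p ∧ ltC C D p c.1 = ltC C D p c'.1 := by
      intro p hp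
      unfold ltC
      constructor
      · rw [decide_eq_false hp, decide_eq_false (show ¬ ceN C c'.1 = ceN C p from fun e => hp (e1.1.trans e)), ← e1.1,
          Bool.false_and, Bool.false_and]
      · rw [decide_eq_false (show ¬ ceN C p = ceN C c.1 from fun e => hp e.symm),
          decide_eq_false (show ¬ ceN C p = ceN C c'.1 from fun e => hp (e1.1.trans e.symm)), ← e1.1,
          Bool.false_and, Bool.false_and]
    have f2 : ∀ p : ℕ, ceN C c.1 ≠ ceN C p → bwC C D c.1 x.1 p = bwC C D c'.1 x.1 p := by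
      intro p hp
      unfold bwC
      rw [(f1 p hp).1, (f1 p hp).2]
    have n1 : c'.1 ≠ x.1 := fun e => e2 (e1.1.trans (congrArg (ceN C) e))
    have n2 : c'.1 ≠ y.1 := fun e => e3 (e1.1.trans (congrArg (ceN C) e))
    have n3 : c'.1 ≠ z.1 := fun e => e4 (e1.1.trans (congrArg (ceN C) e))
    have m1 : c.1 ≠ x.1 := fun e => d1 (Subtype.ext e)
    have m2 : c.1 ≠ y.1 := fun e => d2 (Subtype.ext e)
    have m3 : c.1 ≠ z.1 := fun e => d3 (Subtype.ext e)
    unfold XC crC at hx ⊢
    rw [← f2 y.1 e3, ← f2 z.1 e4, decide_eq_true n1, decide_eq_true n2, decide_eq_true n3]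
    rw [decide_eq_true m1, decide_eq_true m2, decide_eq_true m3] at hx
    exact hx
  have esy : ∀ {a b : Mem (L0 C)}, EC C F a b → EC C F b a := by
    intro a b hab
    have := eE.1 hab
    exact eE.2 ⟨this.1.symm, this.1 ▸ this.2⟩
  have etr : ∀ {a b c : Mem (L0 C)}, EC C F a b → EC C F b c → EC C F a c := by
    intro a b c hab hbc
    have h1 := eE.1 hab
    have h2 := eE.1 hbc
    exact eE.2 ⟨h1.1.trans h2.1, h1.2⟩
  have nE : ∀ {c c' x : Mem (L0 C)}, EC C F c c' → ¬ EC C F c x → ¬ EC C F c' x := fun h1 h2 h3 => h2 (etr h1 h3)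
  refine ⟨S, sw1, sw2, ?_, ?_, ?_, ?_, ?_, esy, etr, cel, ?_⟩
  · intro a b c d hp hq
    obtain ⟨-, ⟨g, h2⟩, -⟩ := pc_iff.1 hp
    exact (pc_iff.1 hq).1 g h2
  · intro a b c d hp D
    exact (pc_iff.1 hp).1 D
  · intro a b c d h1 h2 h3 f g hx
    by_contra hy
    obtain ⟨d1, d2, d3, d4, d5, d6⟩ := ds hx
    rcases (S g).one d1 d2 d3 d4 d5 d6 with hz | hz | hz
    · exact hy hz
    · refine h3 (pc_iff.2 ⟨fun k hk => no_three h hx hz hk, ⟨f, ?_⟩, ⟨g, ?_⟩⟩)
      · exact sw hx
      · intro hw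
        exact hy (sw hw)
    · refine h2 (pc_iff.2 ⟨fun k hk => no_three h hx hk hz, ⟨f, hx⟩, ⟨g, hy⟩⟩)
  · intro a b c d hp
    obtain ⟨h1, ⟨g, h2⟩, ⟨k, h3⟩⟩ := pc_iff.1 hp
    by_contra hcon
    have hcst : ∀ i, i < C.length → i ∉ F → cst C i false = cst C i true := by
      intro i hi hiF
      by_contra hne
      exact hiF (hF i hi hne)
    have hltc : ∀ p q : ℕ, ceN C p < C.length → (ceN C p = ceN C q → ceN C p ∉ F) → ltC C g p q = ltC C k p q := by
      intro p q hpl hpq
      unfold ltC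
      by_cases e : ceN C p = ceN C q
      · have e5 := hcst _ hpl (hpq e)
        have e6 : ∀ u v : Bool, cst C (ceN C p) u = cst C (ceN C p) v := by
          intro u v
          cases u <;> cases v
          · rfl
          · exact e5
          · exact e5.symm
          · rfl
        rw [e6 (g (ceN C p)) (k (ceN C p))]
      · rw [decide_eq_false e, Bool.false_and, Bool.false_and]
    have hn : ∀ p q : Mem (L0 C), ¬ EC C F p q → ltC C g p.1 q.1 = ltC C k p.1 q.1 := by
      intro p q hpq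
      exact hltc _ _ (ceL p) (fun e hF' => hpq (eE.2 ⟨e, hF'⟩))
    apply h3
    unfold XC crC bwC at h2 ⊢
    rw [← hn a b (fun e => hcon (Or.inl e)), ← hn b c (fun e => hcon (Or.inr (Or.inr (Or.inr (Or.inl e))))),
      ← hn c b (fun e => hcon (Or.inr (Or.inr (Or.inr (Or.inl (esy e)))))), ← hn b a (fun e => hcon (Or.inl (esy e))),
      ← hn a d (fun e => hcon (Or.inr (Or.inr (Or.inl e)))), ← hn d c (fun e => hcon (Or.inr (Or.inr (Or.inr (Or.inr (Or.inr (esy e))))))),
      ← hn c d (fun e => hcon (Or.inr (Or.inr (Or.inr (Or.inr (Or.inr e)))))), ← hn d a (fun e => hcon (Or.inr (Or.inr (Or.inl (esy e)))))]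
    exact h2
  · intro D1 D2 D3 a b c d
    obtain ⟨i, j, hij⟩ := two_bits (C := C) a.1 b.1 c.1 d.1
    have hb : ∀ u1 u2 u3 v1 v2 v3 : Bool, (mjB u1 u2 u3 = u1 ∧ mjB v1 v2 v3 = v1) ∨ (mjB u1 u2 u3 = u2 ∧ mjB v1 v2 v3 = v2) ∨
        (mjB u1 u2 u3 = u3 ∧ mjB v1 v2 v3 = v3) := by decide
    unfold XC
    rcases hb (D1 i) (D2 i) (D3 i) (D1 j) (D2 j) (D3 j) with ⟨e1, e2⟩ | ⟨e1, e2⟩ | ⟨e1, e2⟩
    · left
      rw [(hij (mD D1 D2 D3) D1 e1 e2).1]
    · right; left
      rw [(hij (mD D1 D2 D3) D2 e1 e2).1]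
    · right; right
      rw [(hij (mD D1 D2 D3) D3 e1 e2).1]
  · intro c c' x y z h1 h2 h3 h4 hp
    obtain ⟨k1, ⟨g, k2⟩, ⟨k, k3⟩⟩ := pc_iff.1 hp
    have r1 := esy h1
    have r2 := nE h1 h2
    have r3 := nE h1 h3
    have r4 := nE h1 h4
    refine pc_iff.2 ⟨fun f hx => k1 f (cel r1 r2 r3 r4 hx), ⟨g, cel h1 h3 h2 h4 k2⟩, ⟨k, fun hx => k3 (cel r1 r3 r2 r4 hx)⟩⟩


end Pool.Agent.SOY
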