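import Pool.Agent.SOX.FG
import Pool.Agent.SOX.FH
import Pool.Agent.SOB.PolS

/-! Project SOY (MP_66ba69_lc, the rigid step: orders with two-state cells), module Defs (size 0). General form of SOX: the order is a
concatenation of cells, a cell is a pair of lists (state false, state true) with the same members. The crossing pairing of a quartet either is
the same in all states (plain quartet) or some pairing (the designated one) never crosses. -/

set_option autoImplicit false

namespace Pool.Agent.SOY

open Pool.Agent.SOC Pool.Agent.SOD Pool.Agent.SOS Pool.Agent.RUP Pool.Agent.SOF Pool.Agent.SOV Pool.Agent.SOB Pool.Agent.SOX FP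

variable {V ι : Type}

/-- majority of the states -/
def mD (D1 D2 D3 : ι → Bool) (x : ι) : Bool := mjB (D1 x) (D2 x) (D3 x)

/-- majority of the tables -/
def mT (t1 t2 t3 : V → V → V → V → Prop) (a b c d : V) : Prop := mjP (t1 a b c d) (t2 a b c d) (t3 a b c d)

/-- `X D`: crossing relation of the order given by the states `D`; `pr`: designated pairings; `E`: the points are in the same flipping cell -/
structure Flp (X : (ι → Bool) → V → V → V → V → Prop) (pr : V → V → V → V → Prop) (E : V → V → Prop) : Prop where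
  sep : ∀ D, Sepr (X D)
  sw1 : ∀ {a b c d}, pr a b c d → pr b a c d
  sw2 : ∀ {a b c d}, pr a b c d → pr c d a b
  ex : ∀ {a b c d}, pr a b c d → ¬ pr a c b d
  nc : ∀ {a b c d}, pr a b c d → ∀ D, ¬ X D a b c d
  free : ∀ {a b c d}, ¬ pr a b c d → ¬ pr a c b d → ¬ pr a d b c → ∀ {D D'}, X D a b c d → X D' a b c d
  prE : ∀ {a b c d}, pr a b c d → E a b ∨ E a c ∨ E a d ∨ E b c ∨ E b d ∨ E c d
  mj : ∀ D1 D2 D3 a b c d, (X (mD D1 D2 D3) a b c d ↔ X D1 a b c d) ∨ (X (mD D1 D2 D3) a b c d ↔ X D2 a b c d) ∨
    (X (mD D1 D2 D3) a b c d ↔ X D3 a b c d)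
  esy : ∀ {a b}, E a b → E b a
  etr : ∀ {a b c}, E a b → E b c → E a c
  cel : ∀ {c c' x y z}, E c c' → ¬ E c x → ¬ E c y → ¬ E c z → ∀ {D}, X D c x y z → X D c' x y z
  celp : ∀ {c c' x y z}, E c c' → ¬ E c x → ¬ E c y → ¬ E c z → pr c x y z → pr c' x y z

/-- the structure given by the crossing relation `X` and the table `t` -/
structure Dec (G : SimpleGraph V) (X pr t : V → V → V → V → Prop) (a b c d : V) : Prop where
  ab : a ≠ b
  cd : c ≠ d
  sq : Sq G a b c d
  nc : ¬ X a b c d
  one : K4 G a b c d → pr a b c d → t a b c d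
  two : K4 G a b c d → pr a c b d → ¬ t a c b d
  thr : K4 G a b c d → pr a d b c → ¬ t a d b c
  non : K4 G a b c d → ¬ pr a b c d → ¬ pr a c b d → ¬ pr a d b c → t a b c d

/-- the axioms on four points, for the points in `S` -/
structure Qb (G : SimpleGraph V) (X T : V → V → V → V → Prop) (S : V → Prop) : Prop where
  swap₁ : ∀ {a b c d}, S a → S b → S c → S d → T a b c d → T b a c d
  swap₂ : ∀ {a b c d}, S a → S b → S c → S d → T a b c d → T c d a b
  ne : ∀ {a b c d}, S a → S b → S c → S d → T a b c d → a ≠ b
  adj : ∀ {a b c d}, S a → S b → S c → S d → T a b c d → G.Adj a c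
  nocross : ∀ {a b c d}, S a → S b → S c → S d → T a b c d → ¬ X a b c d
  some : ∀ {a b c d}, S a → S b → S c → S d → G.Adj a c → G.Adj b d → a ≠ b → a ≠ d → b ≠ c → c ≠ d → X a c b d →
    T a b c d ∨ T a d b c
  notboth : ∀ {a b c d}, S a → S b → S c → S d → T a b c d → ¬ T a d b c

/-- the axioms for sets without a complete graph on five vertices -/
structure Qt (G : SimpleGraph V) (T : V → V → V → V → Prop) (S : V → Prop) : Prop where
  trans : ∀ {u w x y z}, S u → S w → S x → S y → S z → K5F G [u, w, x, y, z] → T u w x y → T u w y z → x ≠ z → T u w x z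
  ferrers : ∀ {a b x y x' y'}, S a → S b → S x → S y → S x' → S y' → K5F G [a, b, x, y, x', y'] →
    T a x b y → T a x' b y' → T a x b y' ∨ T a x' b y

/-- no two of five points are in one flipping cell -/
def N5 (E : V → V → Prop) (a b c d x : V) : Prop :=
  ¬ E a b ∧ ¬ E a c ∧ ¬ E a d ∧ ¬ E a x ∧ ¬ E b c ∧ ¬ E b d ∧ ¬ E b x ∧ ¬ E c d ∧ ¬ E c x ∧ ¬ E d x

/-- the condition for complete graphs on five vertices, without two points in one flipping cell -/
def Qk (G : SimpleGraph V) (X T : V → V → V → V → Prop) (E : V → V → Prop) (S : V → Prop) : Prop :=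
  ∀ {a b c d x}, S a → S b → S c → S d → S x → K5 G a b c d x → N5 E a b c d x → X x a c d → X x b c d → T a b c d → T a b c x

/-- the condition for all complete graphs on five vertices -/
def Qk5 (G : SimpleGraph V) (X T : V → V → V → V → Prop) : Prop :=
  ∀ {a b c d x}, K5 G a b c d x → X x a c d → X x b c d → T a b c d → T a b c x

/-- normal form: all points of a flipping cell have the same quartets with three points outside, in complete graphs on five points -/
def Nf (G : SimpleGraph V) (T : V → V → V → V → Prop) (E : V → V → Prop) (S : V → Prop) : Prop :=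
  ∀ {c c' x y z}, S c → S c' → S x → S y → S z → E c c' → ¬ E c x → ¬ E c y → ¬ E c z → K5 G c c' x y z → T c x y z → T c' x y z

/-- prescribed values -/
structure Un (T U1 U0 : V → V → V → V → Prop) (S : V → Prop) : Prop where
  un1 : ∀ {a b c d}, S a → S b → S c → S d → U1 a b c d → T a b c d
  un0 : ∀ {a b c d}, S a → S b → S c → S d → U0 a b c d → ¬ T a b c d

/-- everything -/
structure QG (G : SimpleGraph V) (X T : V → V → V → V → Prop) (E : V → V → Prop) (U1 U0 : V → V → V → V → Prop) (S : V → Prop) : Prop where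
  b : Qb G X T S
  t : Qt G T S
  k : Qk G X T E S
  n : Nf G T E S
  u : Un T U1 U0 S

/-! ### Boolean functions -/

/-- cells: pairs of lists with the same members -/
abbrev Cell := List ℕ × List ℕ

/-- number of the cell of `a` -/
def ceN (C : List Cell) (a : ℕ) : ℕ := C.findIdx fun p => decide (a ∈ p.1)

/-- the list of the cell number `i` in state `u` -/
def cst (C : List Cell) (i : ℕ) (u : Bool) : List ℕ := if u then (C.getD i ([], [])).2 else (C.getD i ([], [])).1

/-- the order -/
def ordC (C : List Cell) (f : ℕ → Bool) : List ℕ := (List.range C.length).flatMap fun i => cst C i (f i)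

/-- `a` before `b` -/
def ltC (C : List Cell) (f : ℕ → Bool) (a b : ℕ) : Bool :=
  decide (ceN C a < ceN C b) || (decide (ceN C a = ceN C b) &&
    decide ((cst C (ceN C a) (f (ceN C a))).idxOf a < (cst C (ceN C a) (f (ceN C a))).idxOf b))

/-- `c` between `a` and `b` -/
def bwC (C : List Cell) (f : ℕ → Bool) (a b c : ℕ) : Bool := (ltC C f a c && ltC C f c b) || (ltC C f b c && ltC C f c a)

/-- crossing -/
def crC (C : List Cell) (f : ℕ → Bool) (a b c d : ℕ) : Bool :=
  (decide (a ≠ b) && (decide (a ≠ c) && (decide (a ≠ d) && (decide (b ≠ c) && (decide (b ≠ d) && decide (c ≠ d)))))) &&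
    xor (bwC C f a b c) (bwC C f a b d)

/-- the states of the cells of four points -/
def gst (C : List Cell) (a b c : ℕ) (u : List Bool) (i : ℕ) : Bool :=
  if i = ceN C a then u.getD 0 false else if i = ceN C b then u.getD 1 false else if i = ceN C c then u.getD 2 false else u.getD 3 false

/-- designated pairing -/
def prC (C : List Cell) (a b c d : ℕ) : Bool :=
  ((allB 4).all fun u => !(crC C (gst C a b c u) a b c d)) && (((allB 4).any fun u => crC C (gst C a b c u) a c b d) &&
    ((allB 4).any fun u => !(crC C (gst C a b c u) a c b d)))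

/-- same marked cell -/
def eB (C : List Cell) (F : List ℕ) (a b : ℕ) : Bool := decide (ceN C a = ceN C b) && decide (ceN C a ∈ F)

/-- `Dec` -/
def decC (M : List (List Bool)) (C : List Cell) (f : ℕ → Bool) (a b c d : ℕ) : Bool :=
  decide (a ≠ b) && (decide (c ≠ d) && (sqB M a b c d && (!(crC C f a b c d) && (!(k4B M a b c d) ||
    ((!(prC C a b c d) || tv M f a b c d) &&
    ((!(prC C a c b d) || !(tv M f a c b d)) &&
    ((!(prC C a d b c) || !(tv M f a d b c)) && ((prC C a b c d || (prC C a c b d || prC C a d b c)) || tv M f a b c d))))))))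

/-- crossing edges -/
def someC (M : List (List Bool)) (C : List Cell) (f : ℕ → Bool) (a b c d : ℕ) : Bool :=
  !(adjB M a c && (adjB M b d && (decide (a ≠ b) && (decide (a ≠ d) && (decide (b ≠ c) && (decide (c ≠ d) && crC C f a c b d)))))) ||
    (decC M C f a b c d || decC M C f a d b c)

/-- not both -/
def nbC (M : List (List Bool)) (C : List Cell) (f : ℕ → Bool) (a b c d : ℕ) : Bool := !(decC M C f a b c d && decC M C f a d b c)

/-- transitivity -/
def trC (M : List (List Bool)) (C : List Cell) (f : ℕ → Bool) (u w x y z : ℕ) : Bool :=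
  !(k5fB M [u, w, x, y, z] && (decC M C f u w x y && (decC M C f u w y z && decide (x ≠ z)))) || decC M C f u w x z

/-- Ferrers -/
def feC (M : List (List Bool)) (C : List Cell) (f : ℕ → Bool) (a b x y x' y' : ℕ) : Bool :=
  !(k5fB M [a, b, x, y, x', y'] && (decC M C f a x b y && decC M C f a x' b y')) || (decC M C f a x b y' || decC M C f a x' b y)

/-- no two of five points are in one flipping cell -/
def n5C (C : List Cell) (F : List ℕ) (a b c d x : ℕ) : Bool :=
  !(eB C F a b || (eB C F a c || (eB C F a d || (eB C F a x || (eB C F b c || (eB C F b d || (eB C F b x || (eB C F c d ||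
    (eB C F c x || eB C F d x)))))))))

/-- the condition for complete graphs on five vertices -/
def kkC (M : List (List Bool)) (C : List Cell) (F : List ℕ) (f : ℕ → Bool) (a b c d x : ℕ) : Bool :=
  !(k5B M a b c d x && (n5C C F a b c d x && (crC C f x a c d && (crC C f x b c d && decC M C f a b c d)))) || decC M C f a b c x

/-- prescribed values -/
def unC (M : List (List Bool)) (C : List Cell) (U1 U0 : List Qd) (f : ℕ → Bool) (a b c d : ℕ) : Bool :=
  (!(decide ((a, b, c, d) ∈ U1)) || decC M C f a b c d) && (!(decide ((a, b, c, d) ∈ U0)) || !(decC M C f a b c d))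

/-- parameters: numbers of the flipping cells, extra 2-clauses, prescribed values -/
abbrev Prm := List ℕ × List (ℕ × Bool × ℕ × Bool) × List Qd × List Qd

/-- normal form -/
def nfC (M : List (List Bool)) (C : List Cell) (F : List ℕ) (f : ℕ → Bool) (c c' x y z : ℕ) : Bool :=
  !(eB C F c c' && (!(eB C F c x) && (!(eB C F c y) && (!(eB C F c z) && (k5B M c c' x y z && decC M C f c x y z))))) ||
    decC M C f c' x y z

/-- extra 2-clauses: `(i, u, j, v)` says that the state of `i` is `u` or the state of `j` is `v` -/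
def exC (C : List Cell) (Ex : List (ℕ × Bool × ℕ × Bool)) (f : ℕ → Bool) (a b : ℕ) : Bool :=
  Ex.all fun e => !(decide (e.1 = ceN C a) && decide (e.2.2.1 = ceN C b)) || (decide (f e.1 = e.2.1) || decide (f e.2.2.1 = e.2.2.2))

/-- all axioms for the points in `S` -/
def lvC (M : List (List Bool)) (C : List Cell) (Q : Prm) (S : List ℕ) (f : ℕ → Bool) : Bool :=
  S.all fun a => S.all fun b => (exC C Q.2.1 f a b && S.all fun c => S.all fun d =>
    someC M C f a b c d && (nbC M C f a b c d && (unC M C Q.2.2.1 Q.2.2.2 f a b c d &&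
      ((S.all fun x => trC M C f a b c d x && (kkC M C Q.1 f a b c d x && nfC M C Q.1 f a b c d x)) &&
      (S.all fun x => S.all fun y => feC M C f a b c d x y)))))

/-- the scope: all variables for the points in `S` -/
def scC (n : ℕ) (C : List Cell) (S : List ℕ) : List ℕ :=
  S.map (ceN C) ++ S.flatMap fun a => S.flatMap fun b => S.flatMap fun c => S.map fun d => n + cn n a b c d

/-- all constraints -/
def sysC (M : List (List Bool)) (C : List Cell) (Q : Prm) : List Con :=
  (six (ordC C fun _ => false)).map fun S => con (allB lsc) (scC M.length C S) (lvC M C Q S)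

/-- THE SOLVER: the list of true literals -/
def solC (M : List (List Bool)) (C : List Cell) (Q : Prm) : Option (List ℕ) := solveC (nvF M) (sysC M C Q)

/-- the cells are good -/
structure COk (M : List (List Bool)) (C : List Cell) : Prop where
  perm : ∀ p ∈ C, p.1.Perm p.2
  ne : ∀ p ∈ C, p.1 ≠ []
  nd : (ordC C fun _ => false).Nodup
  lt : ∀ x ∈ ordC C (fun _ => false), x < M.length

/-- the base list -/
abbrev L0 (C : List Cell) : List ℕ := ordC C fun _ => false

/-- the crossing relation on the members -/
def XC (C : List Cell) (f : ℕ → Bool) (a b c d : Mem (L0 C)) : Prop := crC C f a.1 b.1 c.1 d.1 = true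

/-- the designated pairings on the members -/
def PC (C : List Cell) (a b c d : Mem (L0 C)) : Prop := prC C a.1 b.1 c.1 d.1 = true

/-- prescribed quartets on the members -/
def UC (C : List Cell) (U : List Qd) (a b c d : Mem (L0 C)) : Prop := (a.1, b.1, c.1, d.1) ∈ U

/-- same marked cell -/
def EC (C : List Cell) (F : List ℕ) (a b : Mem (L0 C)) : Prop := eB C F a.1 b.1 = true

/-- the table on the members -/
def TC (M : List (List Bool)) (C : List Cell) (f : ℕ → Bool) (a b c d : Mem (L0 C)) : Prop :=
  a ≠ c ∧ a ≠ d ∧ b ≠ c ∧ b ≠ d ∧ tv M f a.1 b.1 c.1 d.1 = true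

/-- the extra clauses hold -/
def ExOk (Ex : List (ℕ × Bool × ℕ × Bool)) (f : ℕ → Bool) : Prop := ∀ e ∈ Ex, f e.1 = e.2.1 ∨ f e.2.2.1 = e.2.2.2

/-- the indices in the extra clauses are cells -/
def ExIn (C : List Cell) (Ex : List (ℕ × Bool × ℕ × Bool)) : Prop := ∀ e ∈ Ex, e.1 < C.length ∧ e.2.2.1 < C.length

/-- the hypotheses on the parameters: all cells with two different lists are marked, the extra clauses are about cells, prescribed values only
for designated pairings and plain quartets -/
structure POk (C : List Cell) (Q : Prm) : Prop where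
  mark : ∀ i, i < C.length → cst C i false ≠ cst C i true → i ∈ Q.1
  ex : ExIn C Q.2.1
  u1 : ∀ a b c d : Mem (L0 C), UC C Q.2.2.1 a b c d → PC C a b c d ∨ (¬ PC C a c b d ∧ ¬ PC C a d b c)
  u0 : ∀ a b c d : Mem (L0 C), UC C Q.2.2.2 a b c d → PC C a b c d ∨ (¬ PC C a c b d ∧ ¬ PC C a d b c)

/-- all axioms, for all members -/
def QC (M : List (List Bool)) (C : List Cell) (Q : Prm) (f : ℕ → Bool) (T : Mem (L0 C) → Mem (L0 C) → Mem (L0 C) → Mem (L0 C) → Prop) : Prop :=
  QG (gL M (L0 C)) (XC C f) T (EC C Q.1) (UC C Q.2.2.1) (UC C Q.2.2.2) fun _ => True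

end Pool.Agent.SOY
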