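import Pool.Agent.SOY.Defs
import Pool.Agent.SOX.FP

/-! Project SOY (MP_66ba69_lc, the rigid step: orders with two-state cells), module YP (size 3): polynomial time (general form of SOX.FP).
-/

set_option autoImplicit false

namespace Pool.Agent.SOY

open Pool.Agent.SOC Pool.Agent.SOD Pool.Agent.SOS Pool.Agent.RUP Pool.Agent.SOF Pool.Agent.SOV Pool.Agent.SOB Pool.Agent.SOX FP

variable {α : Type} [Code α] {M : α → List (List Bool)} {S sc : α → List ℕ} {C : α → List Cell} {Q : α → Prm}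
  {r : α → List Bool} {a b c d v : α → ℕ} {u : α → Bool}

theorem YP_findIdx (C : List Cell) (a : ℕ) :
    C.findIdx (fun p => decide (a ∈ p.1)) = (C.map fun p => decide (a ∈ p.1)).idxOf true := by
  rw [List.idxOf, List.findIdx_map]
  congr 1
  funext p
  simp

theorem poly_ceN (hC : Poly C) (ha : Poly a) : Poly (fun p => ceN (C p) (a p)) := by
  have h1 : Poly (fun p => ((C p).map fun x => decide (a p ∈ x.1)).idxOf true) := by
    refine Poly.idxOf (FP.Poly.const true) ?_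
    refine FP.Poly.map (f := C) (g := fun p (x : Cell) => decide (a p ∈ x.1)) hC ?_
    fun_prop
  exact h1.congr fun p => (YP_findIdx (C p) (a p)).symm

theorem poly_cst (hC : Poly C) (ha : Poly a) (hu : Poly u) : Poly (fun p => cst (C p) (a p) (u p)) := by
  unfold cst
  have h1 : Poly (fun p => (C p).getD (a p) ([], [])) := Poly.getD hC ha (FP.Poly.const ([], []))
  exact Poly.ite (Poly.pred hu) (Poly.snd h1) (Poly.fst h1)

theorem YP_lt {F : α → ℕ → Bool} (hC : Poly C) (hF : Poly (fun q : α × ℕ => F q.1 q.2)) (ha : Poly a) (hb : Poly b) :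
    Poly (fun p => ltC (C p) (F p) (a p) (b p)) := by
  unfold ltC
  have h1 := poly_ceN hC ha
  have h2 := poly_ceN hC hb
  have h3 : Poly (fun p => cst (C p) (ceN (C p) (a p)) (F p (ceN (C p) (a p)))) := poly_cst hC h1 (FP_app hF h1)
  exact Poly.or (Poly.decideLt h1 h2) (Poly.and (Poly.decideEq h1 h2) (Poly.decideLt (Poly.idxOf ha h3) (Poly.idxOf hb h3)))

theorem YP_bw {F : α → ℕ → Bool} (hC : Poly C) (hF : Poly (fun q : α × ℕ => F q.1 q.2)) (ha : Poly a) (hb : Poly b) (hc : Poly c) :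
    Poly (fun p => bwC (C p) (F p) (a p) (b p) (c p)) := by
  unfold bwC
  exact Poly.or (Poly.and (YP_lt hC hF ha hc) (YP_lt hC hF hc hb)) (Poly.and (YP_lt hC hF hb hc) (YP_lt hC hF hc ha))

theorem YP_cr {F : α → ℕ → Bool} (hC : Poly C) (hF : Poly (fun q : α × ℕ => F q.1 q.2)) (ha : Poly a) (hb : Poly b) (hc : Poly c)
    (hd : Poly d) : Poly (fun p => crC (C p) (F p) (a p) (b p) (c p) (d p)) := by
  unfold crC
  exact Poly.and (Poly.and (poly_ne ha hb) (Poly.and (poly_ne ha hc) (Poly.and (poly_ne ha hd) (Poly.and (poly_ne hb hc)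
    (Poly.and (poly_ne hb hd) (poly_ne hc hd)))))) (Poly.xor (YP_bw hC hF ha hb hc) (YP_bw hC hF ha hb hd))

/-- PROOF. Unfold; f = rd (sc p) (r p) (SOX.poly_rd). -/
theorem poly_crC (hC : Poly C) (hs : Poly sc) (hr : Poly r) (ha : Poly a) (hb : Poly b) (hc : Poly c) (hd : Poly d) :
    Poly (fun p => crC (C p) (rd (sc p) (r p)) (a p) (b p) (c p) (d p)) :=
  YP_cr hC (F := fun p => rd (sc p) (r p)) (FP_rd hs hr) ha hb hc hd

theorem YP_gst {w : α → List Bool} (hC : Poly C) (hw : Poly w) (ha : Poly a) (hb : Poly b) (hc : Poly c) :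
    Poly (fun q : α × ℕ => gst (C q.1) (a q.1) (b q.1) (c q.1) (w q.1) q.2) := by
  unfold gst
  have h1 : Poly (fun q : α × ℕ => ceN (C q.1) (a q.1)) := (poly_ceN hC ha).comp Poly.fst'
  have h2 : Poly (fun q : α × ℕ => ceN (C q.1) (b q.1)) := (poly_ceN hC hb).comp Poly.fst'
  have h3 : Poly (fun q : α × ℕ => ceN (C q.1) (c q.1)) := (poly_ceN hC hc).comp Poly.fst'
  have hw1 : Poly (fun q : α × ℕ => w q.1) := hw.comp Poly.fst'
  have g : ∀ n : ℕ, Poly (fun q : α × ℕ => (w q.1).getD n false) := fun n =>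
    Poly.getD hw1 (FP.Poly.const n) (FP.Poly.const false)
  exact Poly.ite (PolyPred.eq Poly.snd' h1) (g 0) (Poly.ite (PolyPred.eq Poly.snd' h2) (g 1)
    (Poly.ite (PolyPred.eq Poly.snd' h3) (g 2) (g 3)))

/-- PROOF. gst C a b c w as the function f: crC with f := gst .. unfolds to a polynomial time function of (C, a, b, c, d, w); then Poly.all / Poly.any over the constant list allB 4. -/
theorem poly_prC (hC : Poly C) (ha : Poly a) (hb : Poly b) (hc : Poly c) (hd : Poly d) :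
    Poly (fun p => prC (C p) (a p) (b p) (c p) (d p)) := by
  unfold prC
  have hC1 : Poly (fun q : α × List Bool => C q.1) := hC.comp Poly.fst'
  have ha1 : Poly (fun q : α × List Bool => a q.1) := ha.comp Poly.fst'
  have hb1 : Poly (fun q : α × List Bool => b q.1) := hb.comp Poly.fst'
  have hc1 : Poly (fun q : α × List Bool => c q.1) := hc.comp Poly.fst'
  have hd1 : Poly (fun q : α × List Bool => d q.1) := hd.comp Poly.fst'
  have hg : Poly (fun q : (α × List Bool) × ℕ => gst (C q.1.1) (a q.1.1) (b q.1.1) (c q.1.1) q.1.2 q.2) :=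
    YP_gst (C := fun q : α × List Bool => C q.1) (w := fun q : α × List Bool => q.2) (a := fun q : α × List Bool => a q.1)
      (b := fun q : α × List Bool => b q.1) (c := fun q : α × List Bool => c q.1) hC1 Poly.snd' ha1 hb1 hc1
  have h1 : Poly (fun q : α × List Bool => crC (C q.1) (gst (C q.1) (a q.1) (b q.1) (c q.1) q.2) (a q.1) (b q.1) (c q.1) (d q.1)) :=
    YP_cr (F := fun q : α × List Bool => gst (C q.1) (a q.1) (b q.1) (c q.1) q.2) hC1 hg ha1 hb1 hc1 hd1
  have h2 : Poly (fun q : α × List Bool => crC (C q.1) (gst (C q.1) (a q.1) (b q.1) (c q.1) q.2) (a q.1) (c q.1) (b q.1) (d q.1)) :=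
    YP_cr (F := fun q : α × List Bool => gst (C q.1) (a q.1) (b q.1) (c q.1) q.2) hC1 hg ha1 hc1 hb1 hd1
  refine Poly.and (Poly.all (f := fun _ => allB 4) (g := fun p w => !(crC (C p) (gst (C p) (a p) (b p) (c p) w) (a p) (b p) (c p) (d p)))
    (FP.Poly.const (allB 4)) (Poly.not h1)) (Poly.and (Poly.any (f := fun _ => allB 4) (g := fun p w =>
      crC (C p) (gst (C p) (a p) (b p) (c p) w) (a p) (c p) (b p) (d p)) (FP.Poly.const (allB 4)) h2)
    (Poly.any (f := fun _ => allB 4) (g := fun p w =>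
      !(crC (C p) (gst (C p) (a p) (b p) (c p) w) (a p) (c p) (b p) (d p))) (FP.Poly.const (allB 4)) (Poly.not h2)))

theorem YP_dec {F : α → ℕ → Bool} (hM : Poly M) (hC : Poly C) (hF : Poly (fun q : α × ℕ => F q.1 q.2)) (ha : Poly a)
    (hb : Poly b) (hc : Poly c) (hd : Poly d) : Poly (fun p => decC (M p) (C p) (F p) (a p) (b p) (c p) (d p)) := by
  unfold decC
  have e1 := poly_prC hC ha hb hc hd
  have e2 := poly_prC hC ha hc hb hd
  have e3 := poly_prC hC ha hd hb hc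
  have t1 := FP_tv hM hF ha hb hc hd
  have t2 := FP_tv hM hF ha hc hb hd
  have t3 := FP_tv hM hF ha hd hb hc
  exact Poly.and (poly_ne ha hb) (Poly.and (poly_ne hc hd) (Poly.and (poly_sqB hM ha hb hc hd)
    (Poly.and (Poly.not (YP_cr hC hF ha hb hc hd)) (Poly.or (Poly.not (poly_k4B hM ha hb hc hd))
      (Poly.and (Poly.or (Poly.not e1) t1) (Poly.and (Poly.or (Poly.not e2) (Poly.not t2))
        (Poly.and (Poly.or (Poly.not e3) (Poly.not t3)) (Poly.or (Poly.or e1 (Poly.or e2 e3)) t1))))))))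

theorem YP_some {F : α → ℕ → Bool} (hM : Poly M) (hC : Poly C) (hF : Poly (fun q : α × ℕ => F q.1 q.2)) (ha : Poly a)
    (hb : Poly b) (hc : Poly c) (hd : Poly d) : Poly (fun p => someC (M p) (C p) (F p) (a p) (b p) (c p) (d p)) := by
  unfold someC
  exact Poly.or (Poly.not (Poly.and (AlgoPoly_adjB hM ha hc) (Poly.and (AlgoPoly_adjB hM hb hd) (Poly.and (poly_ne ha hb)
    (Poly.and (poly_ne ha hd) (Poly.and (poly_ne hb hc) (Poly.and (poly_ne hc hd) (YP_cr hC hF ha hc hb hd))))))))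
    (Poly.or (YP_dec hM hC hF ha hb hc hd) (YP_dec hM hC hF ha hd hb hc))

theorem YP_nb {F : α → ℕ → Bool} (hM : Poly M) (hC : Poly C) (hF : Poly (fun q : α × ℕ => F q.1 q.2)) (ha : Poly a)
    (hb : Poly b) (hc : Poly c) (hd : Poly d) : Poly (fun p => nbC (M p) (C p) (F p) (a p) (b p) (c p) (d p)) := by
  unfold nbC
  exact Poly.not (Poly.and (YP_dec hM hC hF ha hb hc hd) (YP_dec hM hC hF ha hd hb hc))

theorem YP_tr {F : α → ℕ → Bool} {x : α → ℕ} (hM : Poly M) (hC : Poly C) (hF : Poly (fun q : α × ℕ => F q.1 q.2))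
    (ha : Poly a) (hb : Poly b) (hc : Poly c) (hd : Poly d) (hx : Poly x) :
    Poly (fun p => trC (M p) (C p) (F p) (a p) (b p) (c p) (d p) (x p)) := by
  unfold trC
  exact Poly.or (Poly.not (Poly.and (poly_k5fB hM (poly_l5 ha hb hc hd hx)) (Poly.and (YP_dec hM hC hF ha hb hc hd)
    (Poly.and (YP_dec hM hC hF ha hb hd hx) (poly_ne hc hx))))) (YP_dec hM hC hF ha hb hc hx)

theorem YP_fe {F : α → ℕ → Bool} {x y : α → ℕ} (hM : Poly M) (hC : Poly C) (hF : Poly (fun q : α × ℕ => F q.1 q.2))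
    (ha : Poly a) (hb : Poly b) (hc : Poly c) (hd : Poly d) (hx : Poly x) (hy : Poly y) :
    Poly (fun p => feC (M p) (C p) (F p) (a p) (b p) (c p) (d p) (x p) (y p)) := by
  unfold feC
  exact Poly.or (Poly.not (Poly.and (poly_k5fB hM (poly_l6 ha hb hc hd hx hy)) (Poly.and (YP_dec hM hC hF ha hc hb hd)
    (YP_dec hM hC hF ha hx hb hy)))) (Poly.or (YP_dec hM hC hF ha hc hb hy) (YP_dec hM hC hF ha hx hb hd))

theorem YP_eB {L : α → List ℕ} (hC : Poly C) (hL : Poly L) (ha : Poly a) (hb : Poly b) : Poly (fun p => eB (C p) (L p) (a p) (b p)) := by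
  unfold eB
  exact Poly.and (Poly.decideEq (poly_ceN hC ha) (poly_ceN hC hb)) (Poly.decideMem (poly_ceN hC ha) hL)

theorem YP_n5 {L : α → List ℕ} {x : α → ℕ} (hC : Poly C) (hL : Poly L) (ha : Poly a) (hb : Poly b) (hc : Poly c) (hd : Poly d)
    (hx : Poly x) : Poly (fun p => n5C (C p) (L p) (a p) (b p) (c p) (d p) (x p)) := by
  unfold n5C
  exact Poly.not (Poly.or (YP_eB hC hL ha hb) (Poly.or (YP_eB hC hL ha hc) (Poly.or (YP_eB hC hL ha hd) (Poly.or (YP_eB hC hL ha hx)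
    (Poly.or (YP_eB hC hL hb hc) (Poly.or (YP_eB hC hL hb hd) (Poly.or (YP_eB hC hL hb hx) (Poly.or (YP_eB hC hL hc hd)
      (Poly.or (YP_eB hC hL hc hx) (YP_eB hC hL hd hx))))))))))

theorem YP_kk {F : α → ℕ → Bool} {L : α → List ℕ} {x : α → ℕ} (hM : Poly M) (hC : Poly C) (hL : Poly L)
    (hF : Poly (fun q : α × ℕ => F q.1 q.2)) (ha : Poly a) (hb : Poly b) (hc : Poly c) (hd : Poly d) (hx : Poly x) :
    Poly (fun p => kkC (M p) (C p) (L p) (F p) (a p) (b p) (c p) (d p) (x p)) := by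
  unfold kkC
  exact Poly.or (Poly.not (Poly.and (poly_k5B hM ha hb hc hd hx) (Poly.and (YP_n5 hC hL ha hb hc hd hx) (Poly.and (YP_cr hC hF hx ha hc hd)
    (Poly.and (YP_cr hC hF hx hb hc hd) (YP_dec hM hC hF ha hb hc hd)))))) (YP_dec hM hC hF ha hb hc hx)

theorem YP_nf {F : α → ℕ → Bool} {L : α → List ℕ} {x : α → ℕ} (hM : Poly M) (hC : Poly C) (hL : Poly L)
    (hF : Poly (fun q : α × ℕ => F q.1 q.2)) (ha : Poly a) (hb : Poly b) (hc : Poly c) (hd : Poly d) (hx : Poly x) :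
    Poly (fun p => nfC (M p) (C p) (L p) (F p) (a p) (b p) (c p) (d p) (x p)) := by
  unfold nfC
  exact Poly.or (Poly.not (Poly.and (YP_eB hC hL ha hb) (Poly.and (Poly.not (YP_eB hC hL ha hc)) (Poly.and (Poly.not (YP_eB hC hL ha hd))
    (Poly.and (Poly.not (YP_eB hC hL ha hx)) (Poly.and (poly_k5B hM ha hb hc hd hx) (YP_dec hM hC hF ha hc hd hx)))))))
    (YP_dec hM hC hF hb hc hd hx)

theorem YP_un {F : α → ℕ → Bool} {U1 U0 : α → List Qd} (hM : Poly M) (hC : Poly C) (h1 : Poly U1) (h0 : Poly U0)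
    (hF : Poly (fun q : α × ℕ => F q.1 q.2)) (ha : Poly a) (hb : Poly b) (hc : Poly c) (hd : Poly d) :
    Poly (fun p => unC (M p) (C p) (U1 p) (U0 p) (F p) (a p) (b p) (c p) (d p)) := by
  unfold unC
  have h : Poly (fun p => (a p, b p, c p, d p)) := Poly.pair ha (Poly.pair hb (Poly.pair hc hd))
  exact Poly.and (Poly.or (Poly.not (PolyPred.mem h h1).dec) (YP_dec hM hC hF ha hb hc hd))
    (Poly.or (Poly.not (PolyPred.mem h h0).dec) (Poly.not (YP_dec hM hC hF ha hb hc hd)))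

theorem YP_ex {F : α → ℕ → Bool} {E : α → List (ℕ × Bool × ℕ × Bool)} (hC : Poly C) (hE : Poly E)
    (hF : Poly (fun q : α × ℕ => F q.1 q.2)) (ha : Poly a) (hb : Poly b) : Poly (fun p => exC (C p) (E p) (F p) (a p) (b p)) := by
  unfold exC
  refine Poly.all (f := E) (g := fun p (e : ℕ × Bool × ℕ × Bool) => !(decide (e.1 = ceN (C p) (a p)) && decide (e.2.2.1 = ceN (C p) (b p))) ||
    (decide (F p e.1 = e.2.1) || decide (F p e.2.2.1 = e.2.2.2))) hE ?_
  have h1 : Poly (fun q : α × (ℕ × Bool × ℕ × Bool) => ceN (C q.1) (a q.1)) := (poly_ceN hC ha).comp Poly.fst'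
  have h2 : Poly (fun q : α × (ℕ × Bool × ℕ × Bool) => ceN (C q.1) (b q.1)) := (poly_ceN hC hb).comp Poly.fst'
  have e0 : Poly (fun q : α × (ℕ × Bool × ℕ × Bool) => q.2.1) := Poly.fst Poly.snd'
  have e1 : Poly (fun q : α × (ℕ × Bool × ℕ × Bool) => q.2.2.1) := Poly.fst (Poly.snd Poly.snd')
  have e2 : Poly (fun q : α × (ℕ × Bool × ℕ × Bool) => q.2.2.2.1) := Poly.fst (Poly.snd (Poly.snd Poly.snd'))
  have e3 : Poly (fun q : α × (ℕ × Bool × ℕ × Bool) => q.2.2.2.2) := Poly.snd (Poly.snd (Poly.snd Poly.snd'))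
  have f1 : Poly (fun q : α × (ℕ × Bool × ℕ × Bool) => F q.1 q.2.1) :=
    hF.comp (f := fun q : α × (ℕ × Bool × ℕ × Bool) => (q.1, q.2.1)) (Poly.pair Poly.fst' e0)
  have f2 : Poly (fun q : α × (ℕ × Bool × ℕ × Bool) => F q.1 q.2.2.2.1) :=
    hF.comp (f := fun q : α × (ℕ × Bool × ℕ × Bool) => (q.1, q.2.2.2.1)) (Poly.pair Poly.fst' e2)
  exact Poly.or (Poly.not (Poly.and (Poly.decideEq e0 h1) (Poly.decideEq e2 h2))) (Poly.or (Poly.decideEq f1 e1) (Poly.decideEq f2 e3))

/-- auxiliary: the inner test -/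
def YP_in (M : List (List Bool)) (C : List Cell) (Q : Prm) (S : List ℕ) (f : ℕ → Bool) (a b c d : ℕ) : Bool :=
  someC M C f a b c d && (nbC M C f a b c d && (unC M C Q.2.2.1 Q.2.2.2 f a b c d &&
      ((S.all fun x => trC M C f a b c d x && (kkC M C Q.1 f a b c d x && nfC M C Q.1 f a b c d x)) &&
      (S.all fun x => S.all fun y => feC M C f a b c d x y))))

theorem YP_inn {F : α → ℕ → Bool} (hM : Poly M) (hC : Poly C) (hQ : Poly Q) (hS : Poly S) (hF : Poly (fun q : α × ℕ => F q.1 q.2))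
    (ha : Poly a) (hb : Poly b) (hc : Poly c) (hd : Poly d) :
    Poly (fun p => YP_in (M p) (C p) (Q p) (S p) (F p) (a p) (b p) (c p) (d p)) := by
  unfold YP_in
  have hF1 : Poly (fun q : (α × ℕ) × ℕ => F q.1.1 q.2) := hF.comp (f := fun q : (α × ℕ) × ℕ => (q.1.1, q.2)) (by fun_prop)
  have hF2 : Poly (fun q : ((α × ℕ) × ℕ) × ℕ => F q.1.1.1 q.2) :=
    hF.comp (f := fun q : ((α × ℕ) × ℕ) × ℕ => (q.1.1.1, q.2)) (by fun_prop)
  have hL : Poly (fun p => (Q p).1) := Poly.fst hQ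
  refine Poly.and (YP_some hM hC hF ha hb hc hd) (Poly.and (YP_nb hM hC hF ha hb hc hd) (Poly.and
    (YP_un hM hC (Poly.fst (Poly.snd (Poly.snd hQ))) (Poly.snd (Poly.snd (Poly.snd hQ))) hF ha hb hc hd) (Poly.and ?_ ?_)))
  · refine Poly.all (f := S) (g := fun p x => trC (M p) (C p) (F p) (a p) (b p) (c p) (d p) x &&
      (kkC (M p) (C p) (Q p).1 (F p) (a p) (b p) (c p) (d p) x && nfC (M p) (C p) (Q p).1 (F p) (a p) (b p) (c p) (d p) x)) hS ?_
    exact Poly.and
      (YP_tr (M := fun q : α × ℕ => M q.1) (C := fun q : α × ℕ => C q.1) (F := fun q : α × ℕ => F q.1)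
        (a := fun q : α × ℕ => a q.1) (b := fun q : α × ℕ => b q.1) (c := fun q : α × ℕ => c q.1) (d := fun q : α × ℕ => d q.1)
        (x := fun q : α × ℕ => q.2) (by fun_prop) (by fun_prop) hF1 (by fun_prop) (by fun_prop) (by fun_prop)
        (by fun_prop) (by fun_prop))
      (Poly.and (YP_kk (M := fun q : α × ℕ => M q.1) (C := fun q : α × ℕ => C q.1) (L := fun q : α × ℕ => (Q q.1).1)
        (F := fun q : α × ℕ => F q.1)
        (a := fun q : α × ℕ => a q.1) (b := fun q : α × ℕ => b q.1) (c := fun q : α × ℕ => c q.1) (d := fun q : α × ℕ => d q.1)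
        (x := fun q : α × ℕ => q.2) (by fun_prop) (by fun_prop) (by fun_prop) hF1 (by fun_prop) (by fun_prop) (by fun_prop)
        (by fun_prop) (by fun_prop))
      (YP_nf (M := fun q : α × ℕ => M q.1) (C := fun q : α × ℕ => C q.1) (L := fun q : α × ℕ => (Q q.1).1)
        (F := fun q : α × ℕ => F q.1)
        (a := fun q : α × ℕ => a q.1) (b := fun q : α × ℕ => b q.1) (c := fun q : α × ℕ => c q.1) (d := fun q : α × ℕ => d q.1)
        (x := fun q : α × ℕ => q.2) (by fun_prop) (by fun_prop) (by fun_prop) hF1 (by fun_prop) (by fun_prop) (by fun_prop)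
        (by fun_prop) (by fun_prop)))
  · refine Poly.all (f := S) (g := fun p x => (S p).all fun y => feC (M p) (C p) (F p) (a p) (b p) (c p) (d p) x y) hS ?_
    refine Poly.all (f := fun q : α × ℕ => S q.1) (g := fun (q : α × ℕ) y => feC (M q.1) (C q.1) (F q.1) (a q.1) (b q.1)
      (c q.1) (d q.1) q.2 y) (by fun_prop) ?_
    exact YP_fe (M := fun q : (α × ℕ) × ℕ => M q.1.1) (C := fun q : (α × ℕ) × ℕ => C q.1.1)
      (F := fun q : (α × ℕ) × ℕ => F q.1.1) (a := fun q : (α × ℕ) × ℕ => a q.1.1) (b := fun q : (α × ℕ) × ℕ => b q.1.1)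
      (c := fun q : (α × ℕ) × ℕ => c q.1.1) (d := fun q : (α × ℕ) × ℕ => d q.1.1) (x := fun q : (α × ℕ) × ℕ => q.1.2)
      (y := fun q : (α × ℕ) × ℕ => q.2) (by fun_prop) (by fun_prop) hF2 (by fun_prop) (by fun_prop) (by fun_prop)
      (by fun_prop) (by fun_prop) (by fun_prop)

theorem YP_lv {F : α → ℕ → Bool} (hM : Poly M) (hC : Poly C) (hQ : Poly Q) (hS : Poly S) (hF : Poly (fun q : α × ℕ => F q.1 q.2)) :
    Poly (fun p => lvC (M p) (C p) (Q p) (S p) (F p)) := by
  change Poly (fun p => (S p).all fun a => (S p).all fun b => (exC (C p) (Q p).2.1 (F p) a b && (S p).all fun c => (S p).all fun d =>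
    YP_in (M p) (C p) (Q p) (S p) (F p) a b c d))
  refine Poly.all (f := S) (g := fun p a => (S p).all fun b => (exC (C p) (Q p).2.1 (F p) a b && (S p).all fun c => (S p).all fun d =>
    YP_in (M p) (C p) (Q p) (S p) (F p) a b c d)) hS ?_
  refine Poly.all (f := fun q : α × ℕ => S q.1) (g := fun (q : α × ℕ) b => (exC (C q.1) (Q q.1).2.1 (F q.1) q.2 b &&
    (S q.1).all fun c => (S q.1).all fun d => YP_in (M q.1) (C q.1) (Q q.1) (S q.1) (F q.1) q.2 b c d)) (by fun_prop) ?_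
  have hF2 : Poly (fun q : ((α × ℕ) × ℕ) × ℕ => F q.1.1.1 q.2) :=
    hF.comp (f := fun q : ((α × ℕ) × ℕ) × ℕ => (q.1.1.1, q.2)) (by fun_prop)
  refine Poly.and ?_ ?_
  · exact YP_ex (C := fun q : (α × ℕ) × ℕ => C q.1.1) (E := fun q : (α × ℕ) × ℕ => (Q q.1.1).2.1) (F := fun q : (α × ℕ) × ℕ => F q.1.1)
      (a := fun q : (α × ℕ) × ℕ => q.1.2) (b := fun q : (α × ℕ) × ℕ => q.2) (by fun_prop) (by fun_prop) hF2 (by fun_prop) (by fun_prop)
  refine Poly.all (f := fun q : (α × ℕ) × ℕ => S q.1.1) (g := fun (q : (α × ℕ) × ℕ) c => (S q.1.1).all fun d =>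
    YP_in (M q.1.1) (C q.1.1) (Q q.1.1) (S q.1.1) (F q.1.1) q.1.2 q.2 c d) (by fun_prop) ?_
  refine Poly.all (f := fun q : ((α × ℕ) × ℕ) × ℕ => S q.1.1.1) (g := fun (q : ((α × ℕ) × ℕ) × ℕ) d =>
    YP_in (M q.1.1.1) (C q.1.1.1) (Q q.1.1.1) (S q.1.1.1) (F q.1.1.1) q.1.1.2 q.1.2 q.2 d) (by fun_prop) ?_
  have hF4 : Poly (fun q : ((((α × ℕ) × ℕ) × ℕ) × ℕ) × ℕ => F q.1.1.1.1.1 q.2) :=
    hF.comp (f := fun q : ((((α × ℕ) × ℕ) × ℕ) × ℕ) × ℕ => (q.1.1.1.1.1, q.2)) (by fun_prop)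
  exact YP_inn (M := fun q : (((α × ℕ) × ℕ) × ℕ) × ℕ => M q.1.1.1.1) (C := fun q : (((α × ℕ) × ℕ) × ℕ) × ℕ => C q.1.1.1.1)
    (Q := fun q : (((α × ℕ) × ℕ) × ℕ) × ℕ => Q q.1.1.1.1) (S := fun q : (((α × ℕ) × ℕ) × ℕ) × ℕ => S q.1.1.1.1)
    (F := fun q : (((α × ℕ) × ℕ) × ℕ) × ℕ => F q.1.1.1.1) (a := fun q : (((α × ℕ) × ℕ) × ℕ) × ℕ => q.1.1.1.2)
    (b := fun q : (((α × ℕ) × ℕ) × ℕ) × ℕ => q.1.1.2) (c := fun q : (((α × ℕ) × ℕ) × ℕ) × ℕ => q.1.2)
    (d := fun q : (((α × ℕ) × ℕ) × ℕ) × ℕ => q.2) (by fun_prop) (by fun_prop) (by fun_prop) (by fun_prop) hF4 (by fun_prop)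
    (by fun_prop) (by fun_prop) (by fun_prop)

theorem poly_lvC (hM : Poly M) (hC : Poly C) (hQ : Poly Q) (hS : Poly S) (hs : Poly sc) (hr : Poly r) :
    Poly (fun p => lvC (M p) (C p) (Q p) (S p) (rd (sc p) (r p))) :=
  YP_lv hM hC hQ hS (F := fun p => rd (sc p) (r p)) (FP_rd hs hr)

theorem poly_scC (hM : Poly M) (hC : Poly C) (hS : Poly S) : Poly (fun p => scC (M p).length (C p) (S p)) := by
  unfold scC
  refine Poly.append (FP.Poly.map (f := S) (g := fun p x => ceN (C p) x) hS (poly_ceN (by fun_prop) (by fun_prop))) ?_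
  refine Poly.flatMap (f := S) (g := fun p a => (S p).flatMap fun b => (S p).flatMap fun c => (S p).map fun d =>
    (M p).length + cn (M p).length a b c d) hS ?_
  refine Poly.flatMap (f := fun q : α × ℕ => S q.1) (g := fun (q : α × ℕ) b => (S q.1).flatMap fun c => (S q.1).map fun d =>
    (M q.1).length + cn (M q.1).length q.2 b c d) (by fun_prop) ?_
  refine Poly.flatMap (f := fun q : (α × ℕ) × ℕ => S q.1.1) (g := fun (q : (α × ℕ) × ℕ) c => (S q.1.1).map fun d =>
    (M q.1.1).length + cn (M q.1.1).length q.1.2 q.2 c d) (by fun_prop) ?_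
  refine FP.Poly.map (f := fun q : ((α × ℕ) × ℕ) × ℕ => S q.1.1.1) (g := fun (q : ((α × ℕ) × ℕ) × ℕ) d =>
    (M q.1.1.1).length + cn (M q.1.1.1).length q.1.1.2 q.1.2 q.2 d) (by fun_prop) ?_
  exact Poly.add (by fun_prop) (FP_cn (by fun_prop) (by fun_prop) (by fun_prop) (by fun_prop) (by fun_prop))

theorem YP_ord {F : α → ℕ → Bool} (hC : Poly C) (hF : Poly (fun q : α × ℕ => F q.1 q.2)) : Poly (fun p => ordC (C p) (F p)) := by
  unfold ordC
  refine Poly.flatMap (f := fun p => List.range (C p).length) (g := fun p i => cst (C p) i (F p i))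
    (Poly.range (by fun_prop) (PolyBdd.length hC)) ?_
  exact poly_cst (C := fun q : α × ℕ => C q.1) (a := fun q : α × ℕ => q.2) (u := fun q : α × ℕ => F q.1 q.2) (by fun_prop)
    (by fun_prop) hF

/-- PROOF. ordC C f for f = (fun _ => false) and for f = val (w p): flatMap over List.range C.length (PolyBdd). -/
theorem poly_ordC0 (hC : Poly C) : Poly (fun p => ordC (C p) fun _ => false) :=
  YP_ord (F := fun _ _ => false) hC (FP.Poly.const false)

theorem poly_ordC {w : α → List ℕ} (hC : Poly C) (hw : Poly w) : Poly (fun p => ordC (C p) (val (w p))) :=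
  YP_ord (F := fun p => val (w p)) hC (poly_val (by fun_prop) (by fun_prop))

theorem YP_con (A : List (List Bool)) (hM : Poly M) (hC : Poly C) (hQ : Poly Q) (hS : Poly S) :
    Poly (fun p => con A (scC (M p).length (C p) (S p)) (lvC (M p) (C p) (Q p) (S p))) := by
  unfold con
  have hsc := poly_scC hM hC hS
  refine Poly.pair hsc ?_
  refine Poly.filter (f := fun _ => A) (g := fun p r => decide ((scC (M p).length (C p) (S p)).map (rd (scC (M p).length (C p) (S p)) r) = r) &&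
    lvC (M p) (C p) (Q p) (S p) (rd (scC (M p).length (C p) (S p)) r)) (FP.Poly.const A) ?_
  have hsc1 : Poly (fun q : α × List Bool => scC (M q.1).length (C q.1) (S q.1)) := hsc.comp Poly.fst'
  have h1 : Poly (fun q : α × List Bool => (scC (M q.1).length (C q.1) (S q.1)).map (rd (scC (M q.1).length (C q.1) (S q.1)) q.2)) := by
    refine FP.Poly.map (f := fun q : α × List Bool => scC (M q.1).length (C q.1) (S q.1))
      (g := fun (q : α × List Bool) v => rd (scC (M q.1).length (C q.1) (S q.1)) q.2 v) hsc1 ?_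
    exact FP_rd (sc := fun q : α × List Bool => scC (M q.1).length (C q.1) (S q.1)) (r := fun q : α × List Bool => q.2) hsc1 (by fun_prop)
  refine Poly.and (Poly.decideEq h1 (by fun_prop)) ?_
  exact poly_lvC (M := fun q : α × List Bool => M q.1) (C := fun q : α × List Bool => C q.1) (Q := fun q : α × List Bool => Q q.1)
    (S := fun q : α × List Bool => S q.1) (sc := fun q : α × List Bool => scC (M q.1).length (C q.1) (S q.1))
    (r := fun q : α × List Bool => q.2) (by fun_prop) (by fun_prop) (by fun_prop) (by fun_prop) hsc1 (by fun_prop)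

/-- PROOF. As SOX.poly_flipSol (never unfold allB lsc). -/
theorem poly_solC (hM : Poly M) (hC : Poly C) (hQ : Poly Q) : Poly (fun p => solC (M p) (C p) (Q p)) := by
  unfold solC sysC
  have hn : Poly (fun p => nvF (M p)) := by
    unfold nvF
    exact Poly.add (by fun_prop) (Poly.pow (by fun_prop) (FP.Poly.const 4) (PolyBdd.const 4))
  have hb : PolyBdd (fun p => nvF (M p)) := by
    unfold nvF
    exact PolyBdd.add (PolyBdd.length hM) (PolyBdd.pow (PolyBdd.length hM) 4)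
  refine poly_solveC hn hb ?_
  refine FP.Poly.map (f := fun p => six (ordC (C p) fun _ => false)) (g := fun p S => con (allB lsc) (scC (M p).length (C p) S)
    (lvC (M p) (C p) (Q p) S)) (poly_six (poly_ordC0 hC)) ?_
  exact YP_con (allB lsc) (M := fun q : α × List ℕ => M q.1) (C := fun q : α × List ℕ => C q.1) (Q := fun q : α × List ℕ => Q q.1)
    (S := fun q : α × List ℕ => q.2) (by fun_prop) (by fun_prop) (by fun_prop) (by fun_prop)

end Pool.Agent.SOY
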