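import Pool.Agent.SOY.Defs

/-! Project SOY (MP_66ba69_lc, the rigid step: orders with two-state cells), module YA (size 2): from six points to all points.
-/

set_option autoImplicit false

namespace Pool.Agent.SOY

open Pool.Agent.SOC Pool.Agent.SOD Pool.Agent.SOS Pool.Agent.RUP Pool.Agent.SOF Pool.Agent.SOV Pool.Agent.SOB Pool.Agent.SOX FP

variable {V ι : Type} {G : SimpleGraph V} {X : (ι → Bool) → V → V → V → V → Prop} {pr T t : V → V → V → V → Prop} {E : V → V → Prop} {D : ι → Bool}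

variable {X' U1 U0 : V → V → V → V → Prop}

/-- PROOF. Every field restricted to S. -/
theorem qg_mono (h : QG G X' T E U1 U0 (fun _ => True)) (S : V → Prop) : QG G X' T E U1 U0 S where
  b :=
    { swap₁ := fun _ _ _ _ h1 => h.b.swap₁ trivial trivial trivial trivial h1
      swap₂ := fun _ _ _ _ h1 => h.b.swap₂ trivial trivial trivial trivial h1
      ne := fun _ _ _ _ h1 => h.b.ne trivial trivial trivial trivial h1
      adj := fun _ _ _ _ h1 => h.b.adj trivial trivial trivial trivial h1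
      nocross := fun _ _ _ _ h1 => h.b.nocross trivial trivial trivial trivial h1
      some := fun _ _ _ _ h1 h2 h3 h4 h5 h6 h7 => h.b.some trivial trivial trivial trivial h1 h2 h3 h4 h5 h6 h7
      notboth := fun _ _ _ _ h1 => h.b.notboth trivial trivial trivial trivial h1 }
  t :=
    { trans := fun _ _ _ _ _ h1 h2 h3 h4 => h.t.trans trivial trivial trivial trivial trivial h1 h2 h3 h4
      ferrers := fun _ _ _ _ _ _ h1 h2 h3 => h.t.ferrers trivial trivial trivial trivial trivial trivial h1 h2 h3 }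
  k := fun _ _ _ _ _ h1 h2 h3 h4 h5 => h.k trivial trivial trivial trivial trivial h1 h2 h3 h4 h5
  n := fun _ _ _ _ _ h1 h2 h3 h4 h5 h6 => h.n trivial trivial trivial trivial trivial h1 h2 h3 h4 h5 h6
  u :=
    { un1 := fun _ _ _ _ h1 => h.u.un1 trivial trivial trivial trivial h1
      un0 := fun _ _ _ _ h1 => h.u.un0 trivial trivial trivial trivial h1 }

theorem YA_ext {L : List V} (hn : L.Nodup) (h6 : 6 ≤ L.length) (k : ℕ) :
    ∀ l : List V, l.Nodup → l.length + k = 6 → ∃ l' : List V, l'.length = 6 ∧ l'.Nodup ∧ ∀ x ∈ l, x ∈ l' := by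
  induction k with
  | zero => intro l h1 h2; exact ⟨l, by omega, h1, fun x h => h⟩
  | succ k ih =>
    intro l h1 h2
    have : ∃ y ∈ L, y ∉ l := by
      by_contra hc
      push Not at hc
      have hs : L ⊆ l := fun y hy => hc y hy
      have := (List.subperm_of_subset hn hs).length_le
      omega
    obtain ⟨y, _, hy⟩ := this
    obtain ⟨l', e1, e2, e3⟩ := ih (y :: l) (List.nodup_cons.2 ⟨hy, h1⟩) (by simp only [List.length_cons]; omega)
    exact ⟨l', e1, e2, fun x hx => e3 x (List.mem_cons_of_mem _ hx)⟩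

/-- PROOF. Induction: l.dedup has at most six elements; add members of L which are not in the list (if the list has fewer than 6 elements, some member of L is not in it, L is nodup with at least six elements; see SOX.FD) until the length is six. -/
theorem ext_six [DecidableEq V] {L : List V} (hn : L.Nodup) (h6 : 6 ≤ L.length) (l : List V) (hl : l.length ≤ 6) :
    ∃ l' : List V, l'.length = 6 ∧ l'.Nodup ∧ ∀ x ∈ l, x ∈ l' := by
  have hd : l.dedup.length ≤ l.length := (List.dedup_sublist l).length_le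
  obtain ⟨l', e1, e2, e3⟩ := YA_ext hn h6 (6 - l.dedup.length) l.dedup (List.nodup_dedup l) (by omega)
  exact ⟨l', e1, e2, fun x hx => e3 x (List.mem_dedup.2 hx)⟩

/-- PROOF. For every axiom take the points which occur in it (at most six), ext_six, and the corresponding field. -/
theorem qg_of_six [DecidableEq V] {L : List V} (hn : L.Nodup) (h6 : 6 ≤ L.length)
    (h : ∀ l : List V, l.length = 6 → l.Nodup → QG G X' T E U1 U0 (fun x => x ∈ l)) : QG G X' T E U1 U0 (fun _ => True) := by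
  have k4 : ∀ a b c d : V, ∃ l : List V, QG G X' T E U1 U0 (fun x => x ∈ l) ∧ a ∈ l ∧ b ∈ l ∧ c ∈ l ∧ d ∈ l := by
    intro a b c d
    obtain ⟨l, e1, e2, e3⟩ := ext_six hn h6 [a, b, c, d] (by simp)
    exact ⟨l, h l e1 e2, e3 a (by simp), e3 b (by simp), e3 c (by simp), e3 d (by simp)⟩
  have k6 : ∀ a b c d x y : V, ∃ l : List V, QG G X' T E U1 U0 (fun x => x ∈ l) ∧ a ∈ l ∧ b ∈ l ∧ c ∈ l ∧ d ∈ l ∧ x ∈ l ∧ y ∈ l := by
    intro a b c d x y
    obtain ⟨l, e1, e2, e3⟩ := ext_six hn h6 [a, b, c, d, x, y] (by simp)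
    exact ⟨l, h l e1 e2, e3 a (by simp), e3 b (by simp), e3 c (by simp), e3 d (by simp), e3 x (by simp), e3 y (by simp)⟩
  refine ⟨⟨?_, ?_, ?_, ?_, ?_, ?_, ?_⟩, ⟨?_, ?_⟩, ?_, ?_, ⟨?_, ?_⟩⟩
  · intro a b c d _ _ _ _ h1
    obtain ⟨l, q, ha, hb, hc, hd⟩ := k4 a b c d
    exact q.b.swap₁ ha hb hc hd h1
  · intro a b c d _ _ _ _ h1
    obtain ⟨l, q, ha, hb, hc, hd⟩ := k4 a b c d
    exact q.b.swap₂ ha hb hc hd h1
  · intro a b c d _ _ _ _ h1
    obtain ⟨l, q, ha, hb, hc, hd⟩ := k4 a b c d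
    exact q.b.ne ha hb hc hd h1
  · intro a b c d _ _ _ _ h1
    obtain ⟨l, q, ha, hb, hc, hd⟩ := k4 a b c d
    exact q.b.adj ha hb hc hd h1
  · intro a b c d _ _ _ _ h1
    obtain ⟨l, q, ha, hb, hc, hd⟩ := k4 a b c d
    exact q.b.nocross ha hb hc hd h1
  · intro a b c d _ _ _ _ h1 h2 h3 h4 h5 h6 h7
    obtain ⟨l, q, ha, hb, hc, hd⟩ := k4 a b c d
    exact q.b.some ha hb hc hd h1 h2 h3 h4 h5 h6 h7
  · intro a b c d _ _ _ _ h1
    obtain ⟨l, q, ha, hb, hc, hd⟩ := k4 a b c d
    exact q.b.notboth ha hb hc hd h1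
  · intro u w x y z _ _ _ _ _ h1 h2 h3 h4
    obtain ⟨l, q, ha, hb, hc, hd, he, -⟩ := k6 u w x y z z
    exact q.t.trans ha hb hc hd he h1 h2 h3 h4
  · intro a b x y x' y' _ _ _ _ _ _ h1 h2 h3
    obtain ⟨l, q, ha, hb, hc, hd, he, hf⟩ := k6 a b x y x' y'
    exact q.t.ferrers ha hb hc hd he hf h1 h2 h3
  · intro a b c d x _ _ _ _ _ h1 h2 h3 h4 h5
    obtain ⟨l, q, ha, hb, hc, hd, he, -⟩ := k6 a b c d x x
    exact q.k ha hb hc hd he h1 h2 h3 h4 h5
  · intro a b c d x _ _ _ _ _ h1 h2 h3 h4 h5 h6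
    obtain ⟨l, q, ha, hb, hc, hd, he, -⟩ := k6 a b c d x x
    exact q.n ha hb hc hd he h1 h2 h3 h4 h5 h6
  · intro a b c d _ _ _ _ h1
    obtain ⟨l, q, ha, hb, hc, hd⟩ := k4 a b c d
    exact q.u.un1 ha hb hc hd h1
  · intro a b c d _ _ _ _ h1
    obtain ⟨l, q, ha, hb, hc, hd⟩ := k4 a b c d
    exact q.u.un0 ha hb hc hd h1

/-- PROOF. The fields of QF are the fields of Qb, Qt and Qk5. -/
theorem qf_of_qg (h : QG G X' T E U1 U0 (fun _ => True)) (hk : Qk5 G X' T) : QF G X' T where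
  swap₁ := fun h1 => h.b.swap₁ trivial trivial trivial trivial h1
  swap₂ := fun h1 => h.b.swap₂ trivial trivial trivial trivial h1
  ne := fun h1 => h.b.ne trivial trivial trivial trivial h1
  adj := fun h1 => h.b.adj trivial trivial trivial trivial h1
  nocross := fun h1 => h.b.nocross trivial trivial trivial trivial h1
  some := fun h1 h2 h3 h4 h5 h6 h7 => h.b.some trivial trivial trivial trivial h1 h2 h3 h4 h5 h6 h7
  notboth := fun h1 => h.b.notboth trivial trivial trivial trivial h1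
  trans := fun h1 h2 h3 h4 => h.t.trans trivial trivial trivial trivial trivial h1 h2 h3 h4
  ferrers := fun h1 h2 h3 => h.t.ferrers trivial trivial trivial trivial trivial trivial h1 h2 h3
  k5 := fun h1 h2 h3 h4 => hk h1 h2 h3 h4

end Pool.Agent.SOY
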