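import Pool.Agent.SOY.Defs

/-! Project SOY (MP_66ba69_lc, the rigid step: orders with two-state cells), module YC (size 3): the decoded structure (general form of SOX.FC, look at the proofs there).
-/

set_option autoImplicit false

namespace Pool.Agent.SOY

open Pool.Agent.SOC Pool.Agent.SOD Pool.Agent.SOS Pool.Agent.RUP Pool.Agent.SOF Pool.Agent.SOV Pool.Agent.SOB Pool.Agent.SOX FP

variable {V ι : Type} {G : SimpleGraph V} {X : (ι → Bool) → V → V → V → V → Prop} {pr T t : V → V → V → V → Prop} {E : V → V → Prop} {D : ι → Bool}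

theorem YC_k4s1 {a b c d : V} (k : K4 G b a c d) : K4 G a b c d :=
  ⟨k.1.symm, k.2.2.2.1, k.2.2.2.2.1, k.2.1, k.2.2.1, k.2.2.2.2.2⟩

theorem YC_k4s2 {a b c d : V} (k : K4 G c d a b) : K4 G a b c d :=
  ⟨k.2.2.2.2.2, k.2.1.symm, k.2.2.2.1.symm, k.2.2.1.symm, k.2.2.2.2.1.symm, k.1⟩

theorem YC_p3 (h : Flp X pr E) {a b c d : V} (e : pr a b c d) : pr a b d c := h.sw2 (h.sw1 (h.sw2 e))

theorem YC_t3 (ht : Sy t) {a b c d : V} (e : t a b c d) : t a b d c := ht.2 _ _ _ _ (ht.1 _ _ _ _ (ht.2 _ _ _ _ e))

/-- t is symmetric, pr is symmetric (h.sw1, h.sw2). PROOF: all fields of Dec are symmetric; two for b a c d is pr b c a d: not t b c a d, that is thr for a b c d (pr a d b c, not t a d b c) by symmetry. -/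
theorem dec_sw1 (h : Flp X pr E) (ht : Sy t) {a b c d : V} (hd : Dec G (X D) pr t a b c d) : Dec G (X D) pr t b a c d := {
    ab := hd.ab.symm
    cd := hd.cd
    sq := ⟨hd.sq.2.2.1, hd.sq.2.2.2, hd.sq.1, hd.sq.2.1⟩
    nc := fun k => hd.nc ((h.sep D).swap k)
    one := fun k e => ht.1 _ _ _ _ (hd.one (YC_k4s1 k) (h.sw1 e))
    two := fun k e j => hd.thr (YC_k4s1 k) (h.sw2 e) (ht.2 _ _ _ _ j)
    thr := fun k e j => hd.two (YC_k4s1 k) (h.sw2 e) (ht.2 _ _ _ _ j)
    non := fun k n1 n2 n3 => ht.1 _ _ _ _ (hd.non (YC_k4s1 k) (fun e => n1 (h.sw1 e)) (fun e => n3 (h.sw2 e))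
      (fun e => n2 (h.sw2 e))) }

theorem dec_sw2 (h : Flp X pr E) (ht : Sy t) {a b c d : V} (hd : Dec G (X D) pr t a b c d) : Dec G (X D) pr t c d a b := {
    ab := hd.cd
    cd := hd.ab
    sq := ⟨hd.sq.1.symm, hd.sq.2.2.1.symm, hd.sq.2.1.symm, hd.sq.2.2.2.symm⟩
    nc := fun k => hd.nc ((h.sep D).comm k)
    one := fun k e => ht.2 _ _ _ _ (hd.one (YC_k4s2 k) (h.sw2 e))
    two := fun k e j => hd.two (YC_k4s2 k) (YC_p3 h (h.sw1 e)) (YC_t3 ht (ht.1 _ _ _ _ j))
    thr := fun k e j => hd.thr (YC_k4s2 k) (YC_p3 h (h.sw1 (h.sw2 e))) (YC_t3 ht (ht.1 _ _ _ _ (ht.2 _ _ _ _ j)))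
    non := fun k n1 n2 n3 => ht.2 _ _ _ _ (hd.non (YC_k4s2 k) (fun e => n1 (h.sw2 e)) (fun e => n2 (h.sw1 (YC_p3 h e)))
      (fun e => n3 (h.sw2 (h.sw1 (YC_p3 h e))))) }

/-- PROOF. (→) Fields: ab = hq.ne, cd = hq.ne of the swapped, sq: hq.adj with swaps, nc = hq.nocross, one and non: the assumption itself, two and thr: notboth (with swaps). (←) Not K4: a, b, c, d are different. Sepr.one (h.sep D): not X D a b c d (nc), so X D a c b d or X D a d b c. X D a c b d: hq.some (edges ac, bd): T a b c d or T a d b c; the second and Sq give K4. X D a d b c: hq.some for (a, b, d, c): T a b d c or T a c b d, the second gives K4.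
K4: if none of pr a b c d, pr a c b d, pr a d b c: hd.non. If pr a b c d: hd.one. If pr a c b d: ac | bd does not cross (h.nc), so X D a d b c: hq.some for (a, b, d, c): T a b d c or T a c b d, the second contradicts hd.two. If pr a d b c: X D a c b d: T a b c d or T a d b c, the second contradicts hd.thr. -/
theorem dec_enc (h : Flp X pr E) (hq : Qb G (X D) T (fun _ => True)) {a b c d : V} : T a b c d ↔ Dec G (X D) pr T a b c d := by
  have i := trivial
  have w1 : ∀ {p q r s : V}, T p q r s → T q p r s := fun k => hq.swap₁ i i i i k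
  have w2 : ∀ {p q r s : V}, T p q r s → T r s p q := fun k => hq.swap₂ i i i i k
  have w3 : ∀ {p q r s : V}, T p q r s → T p q s r := fun k => w2 (w1 (w2 k))
  have ad : ∀ {p q r s : V}, T p q r s → G.Adj p r := fun k => hq.adj i i i i k
  constructor
  · intro k
    exact
      { ab := hq.ne i i i i k
        cd := hq.ne i i i i (w2 k)
        sq := ⟨ad k, ad (w3 k), ad (w1 k), ad (w3 (w1 k))⟩
        nc := hq.nocross i i i i k
        one := fun _ _ => k
        two := fun _ _ j => hq.notboth i i i i (w3 k) j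
        thr := fun _ _ j => hq.notboth i i i i k j
        non := fun _ _ _ _ => k }
  · intro hd
    have nac : a ≠ c := hd.sq.1.ne
    have nad : a ≠ d := hd.sq.2.1.ne
    have nbc : b ≠ c := hd.sq.2.2.1.ne
    have nbd : b ≠ d := hd.sq.2.2.2.ne
    have hone : X D a c b d ∨ X D a d b c := by
      rcases (h.sep D).one hd.ab nac nad nbc nbd hd.cd with k | k | k
      · exact absurd k hd.nc
      · exact Or.inl k
      · exact Or.inr k
    have s1 : X D a c b d → T a b c d ∨ T a d b c := fun k =>
      hq.some i i i i hd.sq.1 hd.sq.2.2.2 hd.ab nad nbc hd.cd k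
    have s2 : X D a d b c → T a b c d ∨ T a c b d := fun k =>
      (hq.some i i i i hd.sq.2.1 hd.sq.2.2.1 hd.ab nac nbd hd.cd.symm k).imp (fun j => w3 j) id
    by_cases hk : K4 G a b c d
    · by_cases e1 : pr a b c d
      · exact hd.one hk e1
      · by_cases e2 : pr a c b d
        · rcases s2 (hone.resolve_left (h.nc e2 D)) with j | j
          · exact j
          · exact absurd j (hd.two hk e2)
        · by_cases e3 : pr a d b c
          · rcases s1 (hone.resolve_right (h.nc e3 D)) with j | j
            · exact j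
            · exact absurd j (hd.thr hk e3)
          · exact hd.non hk e1 e2 e3
    · rcases hone with k | k
      · rcases s1 k with j | j
        · exact j
        · exact absurd ⟨ad j, hd.sq.1, hd.sq.2.1, hd.sq.2.2.1, hd.sq.2.2.2, (ad (w3 (w1 j))).symm⟩ hk
      · rcases s2 k with j | j
        · exact j
        · exact absurd ⟨ad j, hd.sq.1, hd.sq.2.1, hd.sq.2.2.1, hd.sq.2.2.2, ad (w3 (w1 j))⟩ hk

/-- PROOF. a, b, c, d are different; ac | bd crosses, so not pr a c b d (h.nc): pr a b c d or pr a d b c. ab | cd and ad | bc do not cross (amo, comm, swap). Case pr a b c d: then not pr a c b d, not pr a d b c (h.ex with symmetry: pr a b c d gives not pr a c b d; pr a b d c gives not pr a d b c): Dec a b c d ↔ t a b c d; Dec a d b c: its field two has the premise pr a b d c and says not t a b d c, the others are vacuous. Symmetry of t. Case pr a d b c: the same with the roles exchanged. -/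
theorem dec_flip (h : Flp X pr E) (ht : Sy t) {a b c d : V} (hk : K4 G a b c d) (hX : X D a c b d) (hn : pr a b c d ∨ pr a d b c) :
    Dec G (X D) pr t a b c d ↔ ¬ Dec G (X D) pr t a d b c := by
  have nab : a ≠ b := hk.1.ne
  have nad : a ≠ d := hk.2.2.1.ne
  have nbc : b ≠ c := hk.2.2.2.1.ne
  have ncd : c ≠ d := hk.2.2.2.2.2.ne
  have sx := h.sep D
  have x3 : ∀ {p q r s : V}, X D p q r s → X D p q s r := fun k => sx.comm (sx.swap (sx.comm k))
  have nc1 : ¬ X D a b c d := fun j => sx.amo j hX
  have nc2 : ¬ X D a d b c := fun j => sx.amo (x3 hX) (x3 j)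
  have npac : ¬ pr a c b d := fun e => h.nc e D hX
  have hk' : K4 G a d b c := ⟨hk.2.2.1, hk.1, hk.2.1, hk.2.2.2.2.1.symm, hk.2.2.2.2.2.symm, hk.2.2.2.1⟩
  have sq1 : Sq G a b c d := ⟨hk.2.1, hk.2.2.1, hk.2.2.2.1, hk.2.2.2.2.1⟩
  have sq2 : Sq G a d b c := ⟨hk.1, hk.2.1, hk.2.2.2.2.1.symm, hk.2.2.2.2.2.symm⟩
  rcases hn with hp | hp
  · have np : ¬ pr a d b c := h.ex (YC_p3 h hp)
    constructor
    · intro d1 d2
      exact d2.two hk' (YC_p3 h hp) (YC_t3 ht (d1.one hk hp))
    · intro d2
      have hT : t a b c d := by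
        by_contra hc
        exact d2 {
          ab := nad
          cd := nbc
          sq := sq2
          nc := nc2
          one := fun _ e => absurd e np
          two := fun _ _ j => hc (YC_t3 ht j)
          thr := fun _ e => absurd (YC_p3 h e) npac
          non := fun _ _ n _ => absurd (YC_p3 h hp) n }
      exact {
        ab := nab
        cd := ncd
        sq := sq1
        nc := nc1
        one := fun _ _ => hT
        two := fun _ e => absurd e npac
        thr := fun _ e => absurd e np
        non := fun _ n _ _ => absurd hp n }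
  · have np : ¬ pr a b c d := fun e => h.ex hp (YC_p3 h e)
    constructor
    · intro d1 d2
      exact d1.thr hk hp (d2.one hk' hp)
    · intro d2
      have hT : ¬ t a d b c := by
        intro hc
        exact d2 {
          ab := nad
          cd := nbc
          sq := sq2
          nc := nc2
          one := fun _ _ => hc
          two := fun _ e => absurd (YC_p3 h e) np
          thr := fun _ e => absurd (YC_p3 h e) npac
          non := fun _ n _ _ => absurd hp n }
      exact {
        ab := nab
        cd := ncd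
        sq := sq1
        nc := nc1
        one := fun _ e => absurd e np
        two := fun _ e => absurd e npac
        thr := fun _ _ => hT
        non := fun _ _ _ n => absurd hp n }

/-- PROOF. Not K4, so the last four fields are trivial. -/
theorem dec_nk4 {a b c d : V} (hk : ¬ K4 G a b c d) : Dec G (X D) pr t a b c d ↔ a ≠ b ∧ c ≠ d ∧ Sq G a b c d ∧ ¬ X D a b c d := by
  constructor
  · intro hd
    exact ⟨hd.ab, hd.cd, hd.sq, hd.nc⟩
  · rintro ⟨h1, h2, h3, h4⟩
    exact ⟨h1, h2, h3, h4, fun k => absurd k hk, fun k => absurd k hk, fun k => absurd k hk, fun k => absurd k hk⟩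

end Pool.Agent.SOY
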