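import Pool.Agent.SOY.YO

/-! Project SOY (MP_66ba69_lc, the rigid step: orders with two-state cells), module YH (size 2): locality, scope.
-/

set_option autoImplicit false

namespace Pool.Agent.SOY

open Pool.Agent.SOC Pool.Agent.SOD Pool.Agent.SOS Pool.Agent.RUP Pool.Agent.SOF Pool.Agent.SOV Pool.Agent.SOB Pool.Agent.SOX FP

variable {M : List (List Bool)} {C : List Cell} {F : List ℕ} {Q : Prm}

theorem YH_all {α : Type} {S : List α} {p q : α → Bool} (h : ∀ x ∈ S, p x = q x) : S.all p = S.all q := by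
  induction S with
  | nil => rfl
  | cons a S ih =>
    rw [List.all_cons, List.all_cons, h a (by simp), ih (fun x hx => h x (by simp [hx]))]

theorem YH_ce {n : ℕ} {S : List ℕ} {f g : ℕ → Bool} (h : ∀ v ∈ scC n C S, f v = g v) {x : ℕ} (hx : x ∈ S) :
    f (ceN C x) = g (ceN C x) :=
  h _ (List.mem_append.2 (Or.inl (List.mem_map.mpr ⟨x, hx, rfl⟩)))

theorem YH_tv {S : List ℕ} {f g : ℕ → Bool} (h : ∀ v ∈ scC M.length C S, f v = g v)
    {a b c d : ℕ} (ha : a ∈ S) (hb : b ∈ S) (hc : c ∈ S) (hd : d ∈ S) : tv M f a b c d = tv M g a b c d := by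
  unfold tv
  apply h
  unfold scC
  rw [List.mem_append]
  right
  exact List.mem_flatMap.mpr ⟨a, ha, List.mem_flatMap.mpr ⟨b, hb, List.mem_flatMap.mpr ⟨c, hc, List.mem_map.mpr ⟨d, hd, rfl⟩⟩⟩⟩

theorem YH_lt {n : ℕ} {S : List ℕ} {f g : ℕ → Bool} (h : ∀ v ∈ scC n C S, f v = g v) {a : ℕ} (ha : a ∈ S) (b : ℕ) :
    ltC C f a b = ltC C g a b := by
  unfold ltC
  rw [YH_ce h ha]

theorem YH_bw {n : ℕ} {S : List ℕ} {f g : ℕ → Bool} (h : ∀ v ∈ scC n C S, f v = g v) {a b c : ℕ} (ha : a ∈ S) (hb : b ∈ S)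
    (hc : c ∈ S) : bwC C f a b c = bwC C g a b c := by
  unfold bwC
  rw [YH_lt h ha, YH_lt h hc, YH_lt h hb, YH_lt h hc]

theorem YH_cr {n : ℕ} {S : List ℕ} {f g : ℕ → Bool} (h : ∀ v ∈ scC n C S, f v = g v) {a b c d : ℕ} (ha : a ∈ S) (hb : b ∈ S)
    (hc : c ∈ S) (hd : d ∈ S) : crC C f a b c d = crC C g a b c d := by
  unfold crC
  rw [YH_bw h ha hb hc, YH_bw h ha hb hd]

theorem YH_dec {S : List ℕ} {f g : ℕ → Bool} (h : ∀ v ∈ scC M.length C S, f v = g v)
    {a b c d : ℕ} (ha : a ∈ S) (hb : b ∈ S) (hc : c ∈ S) (hd : d ∈ S) :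
    decC M C f a b c d = decC M C g a b c d := by
  unfold decC
  rw [YH_cr h ha hb hc hd, YH_tv h ha hb hc hd, YH_tv h ha hc hb hd, YH_tv h ha hd hb hc]

theorem YH_ex {n : ℕ} {S : List ℕ} {f g : ℕ → Bool} (h : ∀ v ∈ scC n C S, f v = g v) (Ex : List (ℕ × Bool × ℕ × Bool))
    {a b : ℕ} (ha : a ∈ S) (hb : b ∈ S) : exC C Ex f a b = exC C Ex g a b := by
  unfold exC
  refine YH_all fun e _ => ?_
  by_cases h1 : e.1 = ceN C a
  · by_cases h2 : e.2.2.1 = ceN C b
    · rw [h1, h2, YH_ce h ha, YH_ce h hb]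
    · simp [h2]
  · simp [h1]

/-- PROOF. lvC uses f only in the states f (ceN C x), x ∈ S (ltC, cst, exC: only if e.1 = ceN C a and e.2.2.1 = ceN C b) and in tv M f a b c d with a, b, c, d ∈ S; these variables are members of scC. Prove crC C f a b c d = crC C g a b c d and decC M C f a b c d = decC M C g a b c d for members of S first. -/
theorem lvC_congr {S : List ℕ} {f g : ℕ → Bool} (h : ∀ v ∈ scC M.length C S, f v = g v) : lvC M C Q S f = lvC M C Q S g := by
  unfold lvC
  refine YH_all fun a ha => YH_all fun b hb => ?_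
  rw [YH_ex h Q.2.1 ha hb]
  congr 1
  refine YH_all fun c hc => YH_all fun d hd => ?_
  have h1 : someC M C f a b c d = someC M C g a b c d := by
    unfold someC
    rw [YH_cr h ha hc hb hd, YH_dec h ha hb hc hd, YH_dec h ha hd hb hc]
  have h2 : nbC M C f a b c d = nbC M C g a b c d := by
    unfold nbC
    rw [YH_dec h ha hb hc hd, YH_dec h ha hd hb hc]
  have h0 : unC M C Q.2.2.1 Q.2.2.2 f a b c d = unC M C Q.2.2.1 Q.2.2.2 g a b c d := by
    unfold unC
    rw [YH_dec h ha hb hc hd]
  have h3 : (S.all fun x => trC M C f a b c d x && (kkC M C Q.1 f a b c d x && nfC M C Q.1 f a b c d x)) =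
      (S.all fun x => trC M C g a b c d x && (kkC M C Q.1 g a b c d x && nfC M C Q.1 g a b c d x)) := by
    refine YH_all fun x hx => ?_
    have h4 : trC M C f a b c d x = trC M C g a b c d x := by
      unfold trC
      rw [YH_dec h ha hb hc hd, YH_dec h ha hb hd hx, YH_dec h ha hb hc hx]
    have h5 : kkC M C Q.1 f a b c d x = kkC M C Q.1 g a b c d x := by
      unfold kkC
      rw [YH_cr h hx ha hc hd, YH_cr h hx hb hc hd, YH_dec h ha hb hc hd, YH_dec h ha hb hc hx]
    have h6 : nfC M C Q.1 f a b c d x = nfC M C Q.1 g a b c d x := by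
      unfold nfC
      rw [YH_dec h ha hc hd hx, YH_dec h hb hc hd hx]
    rw [h4, h5, h6]
  have h7 : (S.all fun x => S.all fun y => feC M C f a b c d x y) = (S.all fun x => S.all fun y => feC M C g a b c d x y) := by
    refine YH_all fun x hx => YH_all fun y hy => ?_
    unfold feC
    rw [YH_dec h ha hc hb hd, YH_dec h ha hx hb hy, YH_dec h ha hc hb hy, YH_dec h ha hx hb hd]
  rw [h1, h2, h0, h3, h7]

/-- PROOF. As SOX.scp_len. -/
theorem scC_len {n : ℕ} {S : List ℕ} (h : S.length = 6) : (scC n C S).length = lsc := by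
  unfold scC
  simp only [List.length_append, List.length_map, List.length_flatMap, List.map_const', List.sum_replicate, h,
    smul_eq_mul]
  rfl

theorem YH_step {m n x y : ℕ} (hx : x < m) (hy : y < n) : x * n + y < m * n := by
  calc x * n + y < x * n + n := by omega
    _ = (x + 1) * n := by ring
    _ ≤ m * n := Nat.mul_le_mul_right n hx

theorem YH_cd4 {n a b c d : ℕ} (ha : a < n) (hb : b < n) (hc : c < n) (hd : d < n) : cd4 n a b c d < n ^ 4 := by
  unfold cd4
  have e : n ^ 4 = n * n * n * n := by ring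
  rw [e]
  exact YH_step (YH_step (YH_step ha hb) hc) hd

theorem YH_cn {n a b c d : ℕ} (ha : a < n) (hb : b < n) (hc : c < n) (hd : d < n) : cn n a b c d < n ^ 4 := by
  unfold cn
  have h1 : min a b < n := lt_of_le_of_lt (min_le_left _ _) ha
  have h2 : max a b < n := max_lt ha hb
  have h3 : min c d < n := lt_of_le_of_lt (min_le_left _ _) hc
  have h4 : max c d < n := max_lt hc hd
  split_ifs
  · exact YH_cd4 h1 h2 h3 h4
  · exact YH_cd4 h3 h4 h1 h2

theorem YH_clen (h : COk M C) : C.length ≤ M.length := by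
  have h1 : C.length ≤ (L0 C).length := by
    unfold L0 ordC
    rw [List.length_flatMap]
    have h2 := List.length_le_sum_of_one_le
      ((List.range C.length).map fun i => (cst C i false).length) (by
        intro k hk
        obtain ⟨i, hi, rfl⟩ := List.mem_map.1 hk
        have hi := List.mem_range.1 hi
        have e : C.getD i ([], []) = C[i] := by
          rw [List.getD_eq_getElem?_getD, List.getElem?_eq_getElem hi, Option.getD_some]
        have h3 : cst C i false = (C.getD i ([], [])).1 := rfl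
        rw [h3, e]
        exact List.length_pos_iff.2 (h.ne _ (List.getElem_mem hi)))
    rw [List.length_map, List.length_range] at h2
    exact h2
  have h4 : (L0 C).length ≤ M.length := by
    rw [← List.toFinset_card_of_nodup h.nd]
    calc (L0 C).toFinset.card ≤ (Finset.range M.length).card := Finset.card_le_card (by
          intro x hx
          exact Finset.mem_range.2 (h.lt x (List.mem_toFinset.1 hx)))
      _ = M.length := Finset.card_range _
  omega

/-- PROOF. ceN C x < C.length ≤ M.length (the cells are not empty and disjoint, their members are < M.length: C.length ≤ (L0 C).length ≤ M.length). cn as in SOX.scp_lt. -/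
theorem scC_lt (h : COk M C) {S : List ℕ} (hS : ∀ x ∈ S, x ∈ L0 C) : ∀ v ∈ scC M.length C S, v < nvF M := by
  intro v hv
  unfold scC at hv
  unfold nvF
  simp only [List.mem_append, List.mem_map, List.mem_flatMap] at hv
  rcases hv with ⟨x, hx, rfl⟩ | ⟨a, ha, b, hb, c, hc, d, hd, rfl⟩
  · have h1 := (ce_mem h (hS x hx)).1
    have h2 := YH_clen h
    omega
  · have := YH_cn (h.lt a (hS a ha)) (h.lt b (hS b hb)) (h.lt c (hS c hc)) (h.lt d (hS d hd))
    omega

end Pool.Agent.SOY
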