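import Pool.Agent.SOY.YF
import Pool.Agent.SOY.YC

/-! Project SOY (MP_66ba69_lc, the rigid step: orders with two-state cells), module YI (size 3): Boolean functions and structures (general form of SOX.FI, look at the proofs there).
-/

set_option autoImplicit false

namespace Pool.Agent.SOY

open Pool.Agent.SOC Pool.Agent.SOD Pool.Agent.SOS Pool.Agent.RUP Pool.Agent.SOF Pool.Agent.SOV Pool.Agent.SOB Pool.Agent.SOX FP

variable {M : List (List Bool)} {C : List Cell} {F : List ℕ} {Q : Prm}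

/-- PROOF. tv_symm, tv_comm. -/
theorem sy_C (f : ℕ → Bool) : Sy (TC M C f) := by
  constructor
  · rintro a b c d ⟨h1, h2, h3, h4, h5⟩
    exact ⟨h3, h4, h1, h2, by rw [tv_symm]; exact h5⟩
  · rintro a b c d ⟨h1, h2, h3, h4, h5⟩
    exact ⟨h1.symm, h3.symm, h2.symm, h4.symm, by
      rw [tv_comm M f (ne_iff.2 h1) (ne_iff.2 h2) (ne_iff.2 h3) (ne_iff.2 h4)]; exact h5⟩

theorem YI_nt (b : Bool) : (!b) = true ↔ ¬ (b = true) := by
  cases b <;> simp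

theorem YI_hv {l : List ℕ} (x y : Mem l) : x.1 = y.1 ↔ x = y :=
  ⟨fun e => Subtype.ext e, fun e => congrArg Subtype.val e⟩

/-- PROOF. Unfold decC, simp with Bool.and_eq_true etc.; sqB_iff, k4B_iff of SOV.TstOk (they are stated for members of a list l; here l = L0 C). If Sq holds, the inequalities in TC hold. The last conjunct: not (PC or PC or PC) or tv. -/
theorem decC_iff {f : ℕ → Bool} {a b c d : Mem (L0 C)} :
    decC M C f a.1 b.1 c.1 d.1 = true ↔ Dec (gL M (L0 C)) (XC C f) (PC C) (TC M C f) a b c d := by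
  have e : decC M C f a.1 b.1 c.1 d.1 = true ↔ (a ≠ b ∧ c ≠ d ∧ Sq (gL M (L0 C)) a b c d ∧
      ¬ XC C f a b c d ∧ (¬ K4 (gL M (L0 C)) a b c d ∨
      ((¬ PC C a b c d ∨ tv M f a.1 b.1 c.1 d.1 = true) ∧
      (¬ PC C a c b d ∨ ¬ (tv M f a.1 c.1 b.1 d.1 = true)) ∧
      (¬ PC C a d b c ∨ ¬ (tv M f a.1 d.1 b.1 c.1 = true)) ∧
      ((PC C a b c d ∨ PC C a c b d ∨ PC C a d b c) ∨ tv M f a.1 b.1 c.1 d.1 = true)))) := by
    unfold decC PC XC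
    simp only [Bool.and_eq_true, Bool.or_eq_true, YI_nt, decide_eq_true_eq, ne_eq, YI_hv, sqB_iff, k4B_iff]
  rw [e]
  constructor
  · rintro ⟨h1, h2, h3, h4, h5⟩
    have ac : a ≠ c := h3.1.ne
    have ad : a ≠ d := h3.2.1.ne
    have bc : b ≠ c := h3.2.2.1.ne
    have bd : b ≠ d := h3.2.2.2.ne
    refine ⟨h1, h2, h3, h4, ?_, ?_, ?_, ?_⟩
    · intro hk hp
      rcases h5 with h5 | h5
      · exact absurd hk h5
      · exact ⟨ac, ad, bc, bd, h5.1.resolve_left (fun h => h hp)⟩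
    · intro hk hp ht
      rcases h5 with h5 | h5
      · exact h5 hk
      · exact h5.2.1.resolve_left (fun h => h hp) ht.2.2.2.2
    · intro hk hp ht
      rcases h5 with h5 | h5
      · exact h5 hk
      · exact h5.2.2.1.resolve_left (fun h => h hp) ht.2.2.2.2
    · intro hk p1 p2 p3
      rcases h5 with h5 | h5
      · exact absurd hk h5
      · exact ⟨ac, ad, bc, bd, h5.2.2.2.resolve_left (fun h => by
          rcases h with h | h | h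
          · exact p1 h
          · exact p2 h
          · exact p3 h)⟩
  · rintro ⟨h1, h2, h3, h4, h5, h6, h7, h8⟩
    have ac : a ≠ c := h3.1.ne
    have ad : a ≠ d := h3.2.1.ne
    have bc : b ≠ c := h3.2.2.1.ne
    have bd : b ≠ d := h3.2.2.2.ne
    refine ⟨h1, h2, h3, h4, ?_⟩
    by_cases hk : K4 (gL M (L0 C)) a b c d
    · refine Or.inr ⟨?_, ?_, ?_, ?_⟩
      · by_cases hp : PC C a b c d
        · exact Or.inr (h5 hk hp).2.2.2.2
        · exact Or.inl hp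
      · by_cases hp : PC C a c b d
        · exact Or.inr (fun ht => h6 hk hp ⟨h1, ad, bc.symm, h2, ht⟩)
        · exact Or.inl hp
      · by_cases hp : PC C a d b c
        · exact Or.inr (fun ht => h7 hk hp ⟨h1, ac, bd.symm, h2.symm, ht⟩)
        · exact Or.inl hp
      · by_cases p1 : PC C a b c d
        · exact Or.inl (Or.inl p1)
        · by_cases p2 : PC C a c b d
          · exact Or.inl (Or.inr (Or.inl p2))
          · by_cases p3 : PC C a d b c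
            · exact Or.inl (Or.inr (Or.inr p3))
            · exact Or.inr (h8 hk p1 p2 p3).2.2.2.2
    · exact Or.inl hk

theorem YI_n5 {a b c d x : Mem (L0 C)} : n5C C F a.1 b.1 c.1 d.1 x.1 = true ↔ N5 (EC C F) a b c d x := by
  unfold n5C N5 EC
  simp only [Bool.or_eq_true, YI_nt, not_or]

theorem YI_some {f : ℕ → Bool} (a b c d : Mem (L0 C)) : someC M C f a.1 b.1 c.1 d.1 = true ↔
    (¬ ((gL M (L0 C)).Adj a c ∧ (gL M (L0 C)).Adj b d ∧ ¬ a = b ∧ ¬ a = d ∧ ¬ b = c ∧ ¬ c = d ∧ XC C f a c b d) ∨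
      (Dec (gL M (L0 C)) (XC C f) (PC C) (TC M C f) a b c d ∨ Dec (gL M (L0 C)) (XC C f) (PC C) (TC M C f) a d b c)) := by
  have kA : ∀ a b : Mem (L0 C), adjB M a.1 b.1 = true ↔ (gL M (L0 C)).Adj a b := fun a b => adj_iff
  have kX : ∀ a b c d : Mem (L0 C), crC C f a.1 b.1 c.1 d.1 = true ↔ XC C f a b c d := fun _ _ _ _ => Iff.rfl
  unfold someC
  simp only [Bool.and_eq_true, Bool.or_eq_true, YI_nt, decide_eq_true_eq, ne_eq, YI_hv, decC_iff, kX, kA]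

theorem YI_nb {f : ℕ → Bool} (a b c d : Mem (L0 C)) : nbC M C f a.1 b.1 c.1 d.1 = true ↔
    ¬ (Dec (gL M (L0 C)) (XC C f) (PC C) (TC M C f) a b c d ∧ Dec (gL M (L0 C)) (XC C f) (PC C) (TC M C f) a d b c) := by
  unfold nbC
  simp only [Bool.and_eq_true, YI_nt, decC_iff]

theorem YI_tr {f : ℕ → Bool} (u w x y z : Mem (L0 C)) : trC M C f u.1 w.1 x.1 y.1 z.1 = true ↔
    (¬ (K5F (gL M (L0 C)) [u, w, x, y, z] ∧ Dec (gL M (L0 C)) (XC C f) (PC C) (TC M C f) u w x y ∧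
      Dec (gL M (L0 C)) (XC C f) (PC C) (TC M C f) u w y z ∧ ¬ x = z) ∨
      Dec (gL M (L0 C)) (XC C f) (PC C) (TC M C f) u w x z) := by
  unfold trC
  simp only [Bool.and_eq_true, Bool.or_eq_true, YI_nt, decide_eq_true_eq, ne_eq, YI_hv, decC_iff, k5f5_iff]

theorem YI_fe {f : ℕ → Bool} (a b x y x' y' : Mem (L0 C)) : feC M C f a.1 b.1 x.1 y.1 x'.1 y'.1 = true ↔
    (¬ (K5F (gL M (L0 C)) [a, b, x, y, x', y'] ∧ Dec (gL M (L0 C)) (XC C f) (PC C) (TC M C f) a x b y ∧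
      Dec (gL M (L0 C)) (XC C f) (PC C) (TC M C f) a x' b y') ∨
      (Dec (gL M (L0 C)) (XC C f) (PC C) (TC M C f) a x b y' ∨
      Dec (gL M (L0 C)) (XC C f) (PC C) (TC M C f) a x' b y)) := by
  unfold feC
  simp only [Bool.and_eq_true, Bool.or_eq_true, YI_nt, decC_iff, k5f6_iff]

theorem YI_kk {f : ℕ → Bool} (a b c d x : Mem (L0 C)) : kkC M C F f a.1 b.1 c.1 d.1 x.1 = true ↔
    (¬ (K5 (gL M (L0 C)) a b c d x ∧ N5 (EC C F) a b c d x ∧ XC C f x a c d ∧ XC C f x b c d ∧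
      Dec (gL M (L0 C)) (XC C f) (PC C) (TC M C f) a b c d) ∨
      Dec (gL M (L0 C)) (XC C f) (PC C) (TC M C f) a b c x) := by
  have kX : ∀ a b c d : Mem (L0 C), crC C f a.1 b.1 c.1 d.1 = true ↔ XC C f a b c d := fun _ _ _ _ => Iff.rfl
  unfold kkC
  simp only [Bool.and_eq_true, Bool.or_eq_true, YI_nt, YI_n5, decC_iff, kX, k5B_iff]

theorem YI_nf {f : ℕ → Bool} (c c' x y z : Mem (L0 C)) : nfC M C F f c.1 c'.1 x.1 y.1 z.1 = true ↔
    (¬ (EC C F c c' ∧ ¬ EC C F c x ∧ ¬ EC C F c y ∧ ¬ EC C F c z ∧ K5 (gL M (L0 C)) c c' x y z ∧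
      Dec (gL M (L0 C)) (XC C f) (PC C) (TC M C f) c x y z) ∨
      Dec (gL M (L0 C)) (XC C f) (PC C) (TC M C f) c' x y z) := by
  have kE : ∀ a b : Mem (L0 C), eB C F a.1 b.1 = true ↔ EC C F a b := fun _ _ => Iff.rfl
  unfold nfC
  simp only [Bool.and_eq_true, Bool.or_eq_true, YI_nt, decC_iff, kE, k5B_iff]

theorem YI_un {U1 U0 : List Qd} {f : ℕ → Bool} (a b c d : Mem (L0 C)) : unC M C U1 U0 f a.1 b.1 c.1 d.1 = true ↔
    ((¬ UC C U1 a b c d ∨ Dec (gL M (L0 C)) (XC C f) (PC C) (TC M C f) a b c d) ∧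
      (¬ UC C U0 a b c d ∨ ¬ Dec (gL M (L0 C)) (XC C f) (PC C) (TC M C f) a b c d)) := by
  have kU : ∀ (U : List Qd) (a b c d : Mem (L0 C)), (a.1, b.1, c.1, d.1) ∈ U ↔ UC C U a b c d := fun _ _ _ _ _ => Iff.rfl
  unfold unC
  simp only [Bool.and_eq_true, Bool.or_eq_true, YI_nt, decide_eq_true_eq, decC_iff, kU]

theorem YI_ex {Ex : List (ℕ × Bool × ℕ × Bool)} {f : ℕ → Bool} {a b : ℕ} : exC C Ex f a b = true ↔
    ∀ e ∈ Ex, ¬ (e.1 = ceN C a ∧ e.2.2.1 = ceN C b) ∨ (f e.1 = e.2.1 ∨ f e.2.2.1 = e.2.2.2) := by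
  unfold exC
  simp only [List.all_eq_true, Bool.and_eq_true, Bool.or_eq_true, YI_nt, decide_eq_true_eq]

/-- PROOF. lvC: List.all_eq_true; members of S are members of L0 C. (→) swap₁, swap₂: YC.dec_sw1, dec_sw2 with flp h; the rest as SOX.lvB_iff (trC, feC, kkC with n5C, nfC, unC). exC: the clause e is tested for all a, b ∈ S with ceN C a = e.1, ceN C b = e.2.2.1. -/
theorem lvC_iff (h : COk M C) (hQ : POk C Q) {f : ℕ → Bool} {S : List ℕ} (hS : ∀ x ∈ S, x ∈ L0 C) :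
    lvC M C Q S f = true ↔ QG (gL M (L0 C)) (XC C f) (Dec (gL M (L0 C)) (XC C f) (PC C) (TC M C f)) (EC C Q.1) (UC C Q.2.2.1)
        (UC C Q.2.2.2) (fun x => x.1 ∈ S) ∧
      ∀ e ∈ Q.2.1, ∀ a ∈ S, ∀ b ∈ S, e.1 = ceN C a → e.2.2.1 = ceN C b → f e.1 = e.2.1 ∨ f e.2.2.1 = e.2.2.2 := by
  have hF := flp h hQ.mark
  have key : lvC M C Q S f = true ↔ ∀ a ∈ S, ∀ b ∈ S, exC C Q.2.1 f a b = true ∧ ∀ c ∈ S, ∀ d ∈ S,
      someC M C f a b c d = true ∧ nbC M C f a b c d = true ∧ unC M C Q.2.2.1 Q.2.2.2 f a b c d = true ∧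
      (∀ x ∈ S, trC M C f a b c d x = true ∧ kkC M C Q.1 f a b c d x = true ∧ nfC M C Q.1 f a b c d x = true) ∧
      ∀ x ∈ S, ∀ y ∈ S, feC M C f a b c d x y = true := by
    unfold lvC
    simp only [List.all_eq_true, Bool.and_eq_true]
  rw [key]
  constructor
  · intro k
    refine ⟨⟨⟨?_, ?_, ?_, ?_, ?_, ?_, ?_⟩, ⟨?_, ?_⟩, ?_, ?_, ⟨?_, ?_⟩⟩, ?_⟩
    · intro a b c d _ _ _ _ ht
      exact dec_sw1 hF (sy_C f) ht
    · intro a b c d _ _ _ _ ht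
      exact dec_sw2 hF (sy_C f) ht
    · intro a b c d _ _ _ _ ht
      exact ht.ab
    · intro a b c d _ _ _ _ ht
      exact ht.sq.1
    · intro a b c d _ _ _ _ ht
      exact ht.nc
    · intro a b c d ha hb hc hd h1 h2 h3 h4 h5 h6 h7
      rcases (YI_some a b c d).1 ((k _ ha _ hb).2 _ hc _ hd).1 with h8 | h8
      · exact absurd ⟨h1, h2, h3, h4, h5, h6, h7⟩ h8
      · exact h8
    · intro a b c d ha hb hc hd h1 h2
      exact (YI_nb a b c d).1 ((k _ ha _ hb).2 _ hc _ hd).2.1 ⟨h1, h2⟩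
    · intro u w x y z hu hw hx hy hz h1 h2 h3 h4
      rcases (YI_tr u w x y z).1 (((k _ hu _ hw).2 _ hx _ hy).2.2.2.1 _ hz).1 with h8 | h8
      · exact absurd ⟨h1, h2, h3, h4⟩ h8
      · exact h8
    · intro a b x y x' y' ha hb hx hy hx' hy' h1 h2 h3
      rcases (YI_fe a b x y x' y').1 (((k _ ha _ hb).2 _ hx _ hy).2.2.2.2 _ hx' _ hy') with h8 | h8
      · exact absurd ⟨h1, h2, h3⟩ h8
      · exact h8
    · intro a b c d x ha hb hc hd hx h1 h2 h3 h4 h5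
      rcases (YI_kk a b c d x).1 (((k _ ha _ hb).2 _ hc _ hd).2.2.2.1 _ hx).2.1 with h8 | h8
      · exact absurd ⟨h1, h2, h3, h4, h5⟩ h8
      · exact h8
    · intro c c' x y z hc hc' hx hy hz h1 h2 h3 h4 h5 h6
      rcases (YI_nf c c' x y z).1 (((k _ hc _ hc').2 _ hx _ hy).2.2.2.1 _ hz).2.2 with h8 | h8
      · exact absurd ⟨h1, h2, h3, h4, h5, h6⟩ h8
      · exact h8
    · intro a b c d ha hb hc hd h1
      exact ((YI_un a b c d).1 ((k _ ha _ hb).2 _ hc _ hd).2.2.1).1.resolve_left (fun h2 => h2 h1)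
    · intro a b c d ha hb hc hd h1
      exact ((YI_un a b c d).1 ((k _ ha _ hb).2 _ hc _ hd).2.2.1).2.resolve_left (fun h2 => h2 h1)
    · intro e he a ha b hb h1 h2
      exact (YI_ex.1 (k a ha b hb).1 e he).resolve_left (fun h3 => h3 ⟨h1, h2⟩)
  · rintro ⟨k, kx⟩ a ha b hb
    refine ⟨?_, ?_⟩
    · rw [YI_ex]
      intro e he
      by_cases h1 : e.1 = ceN C a ∧ e.2.2.1 = ceN C b
      · exact Or.inr (kx e he a ha b hb h1.1 h1.2)
      · exact Or.inl h1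
    intro c hc d hd
    refine ⟨?_, ?_, ?_, ?_, ?_⟩
    · refine (YI_some ⟨a, hS a ha⟩ ⟨b, hS b hb⟩ ⟨c, hS c hc⟩ ⟨d, hS d hd⟩).2 ?_
      by_contra hcon
      rw [not_or, not_not] at hcon
      obtain ⟨⟨h1, h2, h3, h4, h5, h6, h7⟩, h8⟩ := hcon
      exact h8 (k.b.some ha hb hc hd h1 h2 h3 h4 h5 h6 h7)
    · refine (YI_nb ⟨a, hS a ha⟩ ⟨b, hS b hb⟩ ⟨c, hS c hc⟩ ⟨d, hS d hd⟩).2 ?_
      rintro ⟨h1, h2⟩
      exact k.b.notboth ha hb hc hd h1 h2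
    · refine (YI_un ⟨a, hS a ha⟩ ⟨b, hS b hb⟩ ⟨c, hS c hc⟩ ⟨d, hS d hd⟩).2 ⟨?_, ?_⟩
      · by_cases h1 : UC C Q.2.2.1 ⟨a, hS a ha⟩ ⟨b, hS b hb⟩ ⟨c, hS c hc⟩ ⟨d, hS d hd⟩
        · exact Or.inr (k.u.un1 ha hb hc hd h1)
        · exact Or.inl h1
      · by_cases h1 : UC C Q.2.2.2 ⟨a, hS a ha⟩ ⟨b, hS b hb⟩ ⟨c, hS c hc⟩ ⟨d, hS d hd⟩
        · exact Or.inr (k.u.un0 ha hb hc hd h1)
        · exact Or.inl h1
    · intro x hx
      refine ⟨?_, ?_, ?_⟩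
      · refine (YI_tr ⟨a, hS a ha⟩ ⟨b, hS b hb⟩ ⟨c, hS c hc⟩ ⟨d, hS d hd⟩ ⟨x, hS x hx⟩).2 ?_
        by_contra hcon
        rw [not_or, not_not] at hcon
        obtain ⟨⟨h1, h2, h3, h4⟩, h8⟩ := hcon
        exact h8 (k.t.trans ha hb hc hd hx h1 h2 h3 h4)
      · refine (YI_kk ⟨a, hS a ha⟩ ⟨b, hS b hb⟩ ⟨c, hS c hc⟩ ⟨d, hS d hd⟩ ⟨x, hS x hx⟩).2 ?_
        by_contra hcon
        rw [not_or, not_not] at hcon
        obtain ⟨⟨h1, h2, h3, h4, h5⟩, h8⟩ := hcon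
        exact h8 (k.k ha hb hc hd hx h1 h2 h3 h4 h5)
      · refine (YI_nf ⟨a, hS a ha⟩ ⟨b, hS b hb⟩ ⟨c, hS c hc⟩ ⟨d, hS d hd⟩ ⟨x, hS x hx⟩).2 ?_
        by_contra hcon
        rw [not_or, not_not] at hcon
        obtain ⟨⟨h1, h2, h3, h4, h5, h6⟩, h8⟩ := hcon
        exact h8 (k.n ha hb hc hd hx h1 h2 h3 h4 h5 h6)
    · intro x hx y hy
      refine (YI_fe ⟨a, hS a ha⟩ ⟨b, hS b hb⟩ ⟨c, hS c hc⟩ ⟨d, hS d hd⟩ ⟨x, hS x hx⟩ ⟨y, hS y hy⟩).2 ?_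
      by_contra hcon
      rw [not_or, not_not] at hcon
      obtain ⟨⟨h1, h2, h3⟩, h8⟩ := hcon
      exact h8 (k.t.ferrers ha hb hc hd hx hy h1 h2 h3)

end Pool.Agent.SOY
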