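import Pool.Agent.SOY.YI
import Pool.Agent.SOY.YA
import Pool.Agent.SOY.YH

/-! Project SOY (MP_66ba69_lc, the rigid step: orders with two-state cells), module YJ (size 3): structures for the orders of two-state cells (general form of SOX.FJ).
-/

set_option autoImplicit false

namespace Pool.Agent.SOY

open Pool.Agent.SOC Pool.Agent.SOD Pool.Agent.SOS Pool.Agent.RUP Pool.Agent.SOF Pool.Agent.SOV Pool.Agent.SOB Pool.Agent.SOX FP

variable {M : List (List Bool)} {C : List Cell} {F : List ℕ} {Q : Prm}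

theorem YJ_qf {V : Type} [DecidableEq V] {G : SimpleGraph V} {s : List V} {T : V → V → V → V → Prop}
    (h : QF G (CrD s) T) : QF G (Cross s) T := by
  refine ⟨h.swap₁, h.swap₂, h.ne, h.adj, ?_, ?_, h.notboth, h.trans, h.ferrers, ?_⟩
  · intro a b c d ht hx
    have h4 := h.adj4 ht
    exact h.nocross ht ⟨⟨h.ne ht, h4.1.ne, h4.2.1.ne, h4.2.2.1.ne, h4.2.2.2.ne, h.ne' ht⟩, hx⟩
  · intro a b c d ac bd ab ad bc cd hx
    exact h.some ac bd ab ad bc cd ⟨⟨ac.ne, ab, ad, bc.symm, cd, bd.ne⟩, hx⟩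
  · intro a b c d x hk h1 h2 h3
    obtain ⟨ab, ac, ad, ax, bc, bd, bx, cd, cx, dx⟩ := id hk
    exact h.k5 hk ⟨⟨ax.ne.symm, cx.ne.symm, dx.ne.symm, ac.ne, ad.ne, cd.ne⟩, h1⟩
      ⟨⟨bx.ne.symm, cx.ne.symm, dx.ne.symm, bc.ne, bd.ne, cd.ne⟩, h2⟩ h3

/-- PROOF. ex_enum: s with s.map Subtype.val = ordC C f. Val_map for Subtype.val: Val (gL M (L0 C)) s ↔ Val (gN M) (ordC C f); Val_enum: ↔ ∃ T, QT (gL M (L0 C)) (Cross s) T. (→) QF for CrD s (the crossing relation is used only for different points; see val_qf in SOX.FJ), XC C f = CrD s. (←) QF for Cross s the same way, exists_qt. -/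
theorem val_qfC (h : COk M C) (f : ℕ → Bool) : Val (gN M) (ordC C f) ↔ ∃ T, QF (gL M (L0 C)) (XC C f) T := by
  obtain ⟨s, hs, hm, hx⟩ := ex_enum h f
  have e : CrD s = XC C f := by
    funext a b c d
    exact propext (hx a b c d).symm
  rw [← hm, ← Val_map (G' := gL M (L0 C)) (G := gN M) (l := s)
    (f := Subtype.val) (fun _ _ _ _ h => Subtype.ext h) (fun _ _ _ _ => Iff.rfl), Val_enum hs, ← e]
  constructor
  · rintro ⟨T, hT⟩
    exact ⟨T, qf_of_qt hs hT⟩
  · rintro ⟨T, hT⟩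
    exact exists_qt hs (YJ_qf hT)

/-- PROOF. As in SOX.val_of_lv: for l : List (Mem (L0 C)) of length 6, nodup: S := l.map Subtype.val ∈ six (L0 C) (mem_six of SOX.FG), lvC_iff, h S; qg_of_six. ExOk: for e the cells e.1, e.2.2.1 are not empty: choose members a, b; some S ∈ six (L0 C) contains both (ext_six for L := L0 C). -/
theorem qc_of_lvC (h : COk M C) (hQ : POk C Q) (h6 : 6 ≤ (L0 C).length) {f : ℕ → Bool}
    (hl : ∀ S ∈ six (L0 C), lvC M C Q S f = true) : (∃ T, QC M C Q f T) ∧ ExOk Q.2.1 f := by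
  constructor
  · refine ⟨Dec (gL M (L0 C)) (XC C f) (PC C) (TC M C f), ?_⟩
    refine qg_of_six (L := (L0 C).attach) (List.nodup_attach.2 h.nd) (by rw [List.length_attach]; exact h6) ?_
    intro l hl0 hl'
    have hS : ∀ x ∈ l.map Subtype.val, x ∈ L0 C := by
      intro x hx
      obtain ⟨y, -, rfl⟩ := List.mem_map.1 hx
      exact y.2
    have h1 := ((lvC_iff (M := M) h hQ hS).1 (hl _ (mem_six.2 ⟨by rw [List.length_map]; exact hl0,
      hl'.map Subtype.val_injective, hS⟩))).1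
    have e : (fun x : Mem (L0 C) => x.1 ∈ l.map Subtype.val) = fun x => x ∈ l := by
      funext x
      refine propext ⟨fun hx => ?_, fun hx => List.mem_map_of_mem hx⟩
      obtain ⟨y, hy, e⟩ := List.mem_map.1 hx
      rwa [← Subtype.ext e]
    rw [e] at h1
    exact h1
  · intro e he
    have hin := hQ.ex e he
    have hmem : ∀ i, i < C.length → ∃ a ∈ L0 C, i = ceN C a := by
      intro i hi
      have h1 : cst C i false ≠ [] := by
        unfold cst
        rw [if_neg (by simp)]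
        rw [List.getD_eq_getElem _ _ hi]
        exact h.ne _ (List.getElem_mem hi)
      obtain ⟨a, ha⟩ := List.exists_mem_of_ne_nil _ h1
      refine ⟨a, ?_, (ce_eq h hi ha).symm⟩
      unfold L0 ordC
      exact List.mem_flatMap.2 ⟨i, List.mem_range.2 hi, ha⟩
    obtain ⟨a, ha, ea⟩ := hmem _ hin.1
    obtain ⟨b, hb, eb⟩ := hmem _ hin.2
    obtain ⟨l, hl1, hl2, hl3⟩ := ext_six (V := Mem (L0 C)) (L := (L0 C).attach) (List.nodup_attach.2 h.nd)
      (by rw [List.length_attach]; exact h6) [⟨a, ha⟩, ⟨b, hb⟩] (by simp)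
    have hS : ∀ x ∈ l.map Subtype.val, x ∈ L0 C := by
      intro x hx
      obtain ⟨y, -, rfl⟩ := List.mem_map.1 hx
      exact y.2
    have h1 := ((lvC_iff (M := M) h hQ hS).1 (hl _ (mem_six.2 ⟨by rw [List.length_map]; exact hl1,
      hl2.map Subtype.val_injective, hS⟩))).2
    refine h1 e he a ?_ b ?_ ea eb
    · exact List.mem_map.2 ⟨⟨a, ha⟩, hl3 _ (by simp), rfl⟩
    · exact List.mem_map.2 ⟨⟨b, hb⟩, hl3 _ (by simp), rfl⟩

theorem YJ_len (h : COk M C) {i : ℕ} (hi : i < C.length) : i < M.length := by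
  have hcard : C.length ≤ M.length := by
    have h2 : ∀ j : Fin C.length, ∃ a ∈ L0 C, j.1 = ceN C a := by
      intro j
      have h1 : cst C j.1 false ≠ [] := by
        unfold cst
        rw [if_neg (by simp)]
        rw [List.getD_eq_getElem _ _ j.2]
        exact h.ne _ (List.getElem_mem j.2)
      obtain ⟨a, ha⟩ := List.exists_mem_of_ne_nil _ h1
      refine ⟨a, ?_, (ce_eq h j.2 ha).symm⟩
      unfold L0 ordC
      exact List.mem_flatMap.2 ⟨j.1, List.mem_range.2 j.2, ha⟩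
    choose a ha hj using h2
    let φ : Fin C.length → Fin M.length := fun j => ⟨a j, h.lt _ (ha j)⟩
    have hφ : Function.Injective φ := by
      intro x y e
      have e2 : a x = a y := congrArg Fin.val e
      apply Fin.ext
      rw [hj x, hj y, e2]
    have := Fintype.card_le_of_injective φ hφ
    simpa using this
  omega

theorem YJ_cst {f g : ℕ → Bool} (hfg : ∀ v < M.length, g v = f v) (h : COk M C) {a : ℕ} (ha : a ∈ L0 C) :
    g (ceN C a) = f (ceN C a) := hfg _ (YJ_len h (ce_mem h ha).1)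

theorem YJ_lt {f g : ℕ → Bool} (hfg : ∀ v < M.length, g v = f v) (h : COk M C) {a : ℕ} (ha : a ∈ L0 C) (b : ℕ) :
    ltC C g a b = ltC C f a b := by
  unfold ltC
  rw [YJ_cst hfg h ha]

theorem YJ_cr {f g : ℕ → Bool} (hfg : ∀ v < M.length, g v = f v) (h : COk M C) : XC C g = XC C f := by
  funext a b c d
  unfold XC crC bwC
  rw [YJ_lt hfg h a.2, YJ_lt hfg h b.2, YJ_lt hfg h c.2, YJ_lt hfg h c.2, YJ_lt hfg h d.2, YJ_lt hfg h d.2,
    YJ_lt hfg h a.2, YJ_lt hfg h b.2]

/-- PROOF. As SOX.lv_of_val: g v = f v for v < M.length, and g (n + cn n a b c d) = true ↔ T a b c d for different members; dec_enc (hT.b): T = Dec .. (TC M C g); qg_mono, lvC_iff. The states: ceN C x < M.length for x in L0 C, and the indices in Q.2.1 are < C.length ≤ M.length (hQ.ex). -/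
theorem lvC_of_qc (h : COk M C) (hQ : POk C Q) {f : ℕ → Bool} (he : ExOk Q.2.1 f) {T : Mem (L0 C) → Mem (L0 C) → Mem (L0 C) → Mem (L0 C) → Prop}
    (hT : QC M C Q f T) : ∃ g : ℕ → Bool, ∀ S ∈ six (L0 C), lvC M C Q S g = true := by
  classical
  have mem : ∀ x : Mem (L0 C), x.1 < M.length := fun x => h.lt x.1 x.2
  have hF := flp h hQ.mark
  have S1 : ∀ {a b c d}, T a b c d → T b a c d := fun k => hT.b.swap₁ trivial trivial trivial trivial k
  have S2 : ∀ {a b c d}, T a b c d → T c d a b := fun k => hT.b.swap₂ trivial trivial trivial trivial k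
  have S3 : ∀ {a b c d}, T a b c d → T a b d c := fun k => S2 (S1 (S2 k))
  have A1 : ∀ {a b c d}, T a b c d → (gL M (L0 C)).Adj a c := fun k => hT.b.adj trivial trivial trivial trivial k
  set g : ℕ → Bool := fun v => if v < M.length then f v else
    decide (∃ a b c d : Mem (L0 C), v = M.length + cn M.length a.1 b.1 c.1 d.1 ∧ T a b c d) with hg
  have hfg : ∀ v < M.length, g v = f v := by
    intro v hv
    rw [hg]
    simp only [if_pos hv]
  have e1 : XC C g = XC C f := YJ_cr hfg h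
  have e2 : TC M C g = T := by
    funext a b c d
    refine propext ?_
    unfold TC tv
    have h1 : g (M.length + cn M.length a.1 b.1 c.1 d.1) = true ↔ ∃ a' b' c' d' : Mem (L0 C),
        M.length + cn M.length a.1 b.1 c.1 d.1 = M.length + cn M.length a'.1 b'.1 c'.1 d'.1 ∧ T a' b' c' d' := by
      rw [hg]
      simp only [if_neg (show ¬ M.length + cn M.length a.1 b.1 c.1 d.1 < M.length by omega), decide_eq_true_eq]
    rw [h1]
    constructor
    · rintro ⟨-, -, -, -, a', b', c', d', e, ht⟩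
      have h2 := cn_inj (mem a) (mem b) (mem c) (mem d) (mem a') (mem b') (mem c') (mem d') (by omega)
      rw [Set.pair_eq_pair_iff, Set.pair_eq_pair_iff, Set.pair_eq_pair_iff, Set.pair_eq_pair_iff] at h2
      rcases h2 with ⟨h2, h3⟩ | ⟨h2, h3⟩
      · rcases h2 with ⟨k1, k2⟩ | ⟨k1, k2⟩ <;> rcases h3 with ⟨k3, k4⟩ | ⟨k3, k4⟩ <;>
          rw [Subtype.ext k1, Subtype.ext k2, Subtype.ext k3, Subtype.ext k4]
        · exact ht
        · exact S3 ht
        · exact S1 ht
        · exact S1 (S3 ht)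
      · rcases h2 with ⟨k1, k2⟩ | ⟨k1, k2⟩ <;> rcases h3 with ⟨k3, k4⟩ | ⟨k3, k4⟩ <;>
          rw [Subtype.ext k1, Subtype.ext k2, Subtype.ext k3, Subtype.ext k4]
        · exact S2 ht
        · exact S2 (S1 ht)
        · exact S2 (S3 ht)
        · exact S2 (S1 (S3 ht))
    · intro ht
      exact ⟨(A1 ht).ne, (A1 (S3 ht)).ne, (A1 (S1 ht)).ne, (A1 (S1 (S3 ht))).ne, a, b, c, d, rfl, ht⟩
  have e3 : Dec (gL M (L0 C)) (XC C f) (PC C) T = T := by
    funext a b c d
    exact propext (dec_enc hF hT.b).symm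
  refine ⟨g, fun S hS => ?_⟩
  rw [lvC_iff h hQ (mem_six.1 hS).2.2, e1, e2, e3]
  refine ⟨qg_mono hT _, ?_⟩
  intro e he0 a _ b _ _ _
  have hin := hQ.ex e he0
  rw [hfg _ (YJ_len h hin.1), hfg _ (YJ_len h hin.2)]
  exact he e he0

end Pool.Agent.SOY
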