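import Pool.Agent.SOY.Defs

/-! Project SOY (MP_66ba69_lc, the rigid step: orders with two-state cells), module YO (size 3): the order and its crossing relation.
-/

set_option autoImplicit false

namespace Pool.Agent.SOY

open Pool.Agent.SOC Pool.Agent.SOD Pool.Agent.SOS Pool.Agent.RUP Pool.Agent.SOF Pool.Agent.SOV Pool.Agent.SOB Pool.Agent.SOX FP

variable {M : List (List Bool)} {C : List Cell} {F : List ℕ} {Q : Prm}

theorem YO_cp (h : COk M C) (i : ℕ) (u v : Bool) : (cst C i u).Perm (cst C i v) := by
  have hp : (C.getD i ([], [])).1.Perm (C.getD i ([], [])).2 := by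
    by_cases hi : i < C.length
    · have e : C.getD i ([], []) = C[i] := by
        rw [List.getD_eq_getElem?_getD, List.getElem?_eq_getElem hi, Option.getD_some]
      rw [e]
      exact h.perm _ (List.getElem_mem hi)
    · have e : C.getD i ([], []) = ([], []) := by
        rw [List.getD_eq_getElem?_getD, List.getElem?_eq_none (by omega), Option.getD_none]
      rw [e]
  unfold cst
  cases u <;> cases v
  · exact List.Perm.refl _
  · exact hp
  · exact hp.symm
  · exact List.Perm.refl _

/-- PROOF. cst C i u is p.1 or p.2 for p = C.getD i, p.1.Perm p.2 (h.perm; out of range both are []). flatMap of pointwise permutations (List.Perm.flatMap_left / flatMap_right). -/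
theorem ord_perm (h : COk M C) (f : ℕ → Bool) : (ordC C f).Perm (L0 C) :=
  List.Perm.flatMap_left _ fun i _ => YO_cp h i _ _

/-- PROOF. a ∈ L0 C: a ∈ p.1 for some p ∈ C; List.findIdx_lt_length, findIdx_getElem: a is in the first component of the cell number ceN C a, so in both lists (h.perm). -/
theorem ce_mem (h : COk M C) {a : ℕ} (ha : a ∈ L0 C) : ceN C a < C.length ∧ ∀ u, a ∈ cst C (ceN C a) u := by
  obtain ⟨i, hi, ha⟩ := List.mem_flatMap.1 ha
  have hi := List.mem_range.1 hi
  have e : C.getD i ([], []) = C[i] := by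
    rw [List.getD_eq_getElem?_getD, List.getElem?_eq_getElem hi, Option.getD_some]
  change a ∈ (C.getD i ([], [])).1 at ha
  rw [e] at ha
  have h1 : ceN C a < C.length := by
    unfold ceN
    exact List.findIdx_lt_length_of_exists ⟨C[i], List.getElem_mem hi, by simpa using ha⟩
  have h2 : a ∈ cst C (ceN C a) false := by
    change a ∈ (C.getD (ceN C a) ([], [])).1
    have e2 : C.getD (ceN C a) ([], []) = C[ceN C a] := by
      rw [List.getD_eq_getElem?_getD, List.getElem?_eq_getElem h1, Option.getD_some]
    rw [e2]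
    have := List.findIdx_getElem (w := h1)
    exact of_decide_eq_true this
  exact ⟨h1, fun u => (YO_cp h _ false u).mem_iff.1 h2⟩

/-- PROOF. a in the list number i implies ceN C a = i: L0 C is nodup, so different cells are disjoint (List.nodup_flatMap, pairwise disjoint). -/
theorem ce_eq (h : COk M C) {a i : ℕ} (hi : i < C.length) {u : Bool} (ha : a ∈ cst C i u) : ceN C a = i := by
  have h1 : a ∈ cst C i false := (YO_cp h i u false).mem_iff.1 ha
  have h2 : a ∈ L0 C := List.mem_flatMap.2 ⟨i, List.mem_range.2 hi, h1⟩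
  obtain ⟨h3, h4⟩ := ce_mem h h2
  by_contra hne
  have hd := (List.nodup_flatMap.1 h.nd).2
  have hsym : Std.Symm (Function.onFun List.Disjoint fun i => cst C i false) := ⟨fun x y hxy => List.Disjoint.symm hxy⟩
  have := List.Pairwise.forall (R := Function.onFun List.Disjoint fun i => cst C i false) hd (List.mem_range.2 h3)
    (List.mem_range.2 hi) hne
  exact this (h4 false) h1

theorem YO_pre (h : COk M C) {f : ℕ → Bool} {a : ℕ} (ha : a ∈ L0 C) {n : ℕ} (hn : n ≤ C.length) :
    a ∈ ((List.range n).flatMap fun i => cst C i (f i)) ↔ ceN C a < n := by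
  constructor
  · intro k
    obtain ⟨i, hi, k⟩ := List.mem_flatMap.1 k
    have hi := List.mem_range.1 hi
    rw [ce_eq h (by omega) k]
    exact hi
  · intro k
    exact List.mem_flatMap.2 ⟨ceN C a, List.mem_range.2 k, (ce_mem h ha).2 _⟩

theorem YO_lt (h : COk M C) {f : ℕ → Bool} {a b : ℕ} (ha : a ∈ L0 C) (hb : b ∈ L0 C) (n : ℕ) (hn : n ≤ C.length)
    (h1 : ceN C a < n) (h2 : ceN C b < n) :
    (((List.range n).flatMap fun i => cst C i (f i)).idxOf a < ((List.range n).flatMap fun i => cst C i (f i)).idxOf b) ↔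
      ltC C f a b = true := by
  induction n with
  | zero => exact absurd h1 (Nat.not_lt_zero _)
  | succ n ih =>
    have ih := ih (by omega)
    rw [List.range_succ, List.flatMap_append, List.flatMap_singleton]
    have ka := YO_pre h (f := f) ha (n := n) (by omega)
    have kb := YO_pre h (f := f) hb (n := n) (by omega)
    by_cases ea : ceN C a < n
    · by_cases eb : ceN C b < n
      · rw [List.idxOf_append_of_mem (ka.2 ea), List.idxOf_append_of_mem (kb.2 eb)]
        exact ih ea eb
      · have hbn : ceN C b = n := by omega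
        rw [List.idxOf_append_of_mem (ka.2 ea), List.idxOf_append_of_notMem (fun k => eb (kb.1 k))]
        have l1 := List.idxOf_lt_length_of_mem (ka.2 ea)
        refine iff_of_true (by omega) ?_
        unfold ltC
        rw [decide_eq_true (show ceN C a < ceN C b by omega)]
        rfl
    · have han : ceN C a = n := by omega
      by_cases eb : ceN C b < n
      · rw [List.idxOf_append_of_notMem (fun k => ea (ka.1 k)), List.idxOf_append_of_mem (kb.2 eb)]
        have l1 := List.idxOf_lt_length_of_mem (kb.2 eb)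
        refine iff_of_false (by omega) ?_
        unfold ltC
        rw [decide_eq_false (show ¬ ceN C a < ceN C b by omega), decide_eq_false (show ¬ ceN C a = ceN C b by omega)]
        simp
      · have hbn : ceN C b = n := by omega
        rw [List.idxOf_append_of_notMem (fun k => ea (ka.1 k)), List.idxOf_append_of_notMem (fun k => eb (kb.1 k))]
        unfold ltC
        rw [hbn, han, Nat.add_lt_add_iff_left]
        simp

/-- PROOF. ordC C f = (lists 0, ..., i - 1) ++ list i ++ (rest) with i = ceN C a. If ceN C a < ceN C b: a is in the lists up to ceN C a, b is not in them (ce_eq), so idxOf a < length of that part ≤ idxOf b. If equal: both are in the list i; idxOf in ordC = length of the first part + idxOf in the list i (List.idxOf_append_of_notMem, idxOf_append_of_mem). If >: symmetric, so neither side holds. A general lemma by induction on C (generalising the start index) may be easier: for flatMap over List.range n. -/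
theorem idx_lt (h : COk M C) {f : ℕ → Bool} {a b : ℕ} (ha : a ∈ L0 C) (hb : b ∈ L0 C) :
    (ordC C f).idxOf a < (ordC C f).idxOf b ↔ ltC C f a b = true :=
  YO_lt h ha hb C.length (le_refl _) (ce_mem h ha).1 (ce_mem h hb).1

theorem YO_ltd (h : COk M C) {f : ℕ → Bool} {a b : ℕ} (ha : a ∈ L0 C) (hb : b ∈ L0 C) :
    ltC C f a b = decide ((ordC C f).idxOf a < (ordC C f).idxOf b) := by
  rw [Bool.eq_iff_iff, decide_eq_true_eq, idx_lt h ha hb]

theorem YO_bw (h : COk M C) {f : ℕ → Bool} {a b c : ℕ} (ha : a ∈ L0 C) (hb : b ∈ L0 C) (hc : c ∈ L0 C) :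
    bwC C f a b c = btwB (ordC C f) a b c := by
  unfold bwC btwB
  rw [YO_ltd h ha hc, YO_ltd h hc hb, YO_ltd h hb hc, YO_ltd h hc ha]

/-- PROOF. Unfold crC, crB, bwC, btwB; idx_lt. -/
theorem cr_eq (h : COk M C) {f : ℕ → Bool} {a b c d : ℕ} (ha : a ∈ L0 C) (hb : b ∈ L0 C) (hc : c ∈ L0 C) (hd : d ∈ L0 C) :
    crC C f a b c d = crB (ordC C f) a b c d := by
  unfold crC crB
  rw [YO_bw h ha hb hc, YO_bw h ha hb hd]

/-- PROOF. s := (ordC C f).attach mapped to Mem (L0 C) by ord_perm; nodup, all members. XC ↔ crB (ordC C f) (cr_eq) ↔ CrD s (idxOf of the map by Subtype.val: idxOf_map_of; SOV.TstOk has crB_iff for L.attach, the proof is the same). -/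
theorem ex_enum (h : COk M C) (f : ℕ → Bool) : ∃ s : List (Mem (L0 C)), IsEnum s ∧ s.map Subtype.val = ordC C f ∧
    ∀ a b c d, XC C f a b c d ↔ CrD s a b c d := by
  have hp := ord_perm h f
  obtain ⟨s, hs⟩ : ∃ s : List (Mem (L0 C)), s.map Subtype.val = ordC C f := by
    refine ⟨(ordC C f).pmap (fun x hx => (⟨x, hx⟩ : Mem (L0 C))) (fun x hx => hp.mem_iff.1 hx), ?_⟩
    rw [List.map_pmap]
    simp
  have hnd : s.Nodup := by
    refine List.Nodup.of_map Subtype.val ?_
    rw [hs]
    exact hp.nodup_iff.2 h.nd
  have hmem : ∀ v : Mem (L0 C), v ∈ s := by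
    intro v
    have : v.1 ∈ s.map Subtype.val := by
      rw [hs]
      exact hp.mem_iff.2 v.2
    obtain ⟨w, hw, e⟩ := List.mem_map.1 this
    rw [← Subtype.ext e]
    exact hw
  have hidx : ∀ a : Mem (L0 C), @List.idxOf (Mem (L0 C)) instBEqOfDecidableEq a s = (ordC C f).idxOf a.1 := by
    intro a
    have := idxOf_map_of (l := s) (f := Subtype.val) (fun _ _ _ _ h => Subtype.ext h) (hmem a)
    rw [hs] at this
    exact this.symm
  refine ⟨s, ⟨hnd, hmem⟩, hs, ?_⟩
  intro a b c d
  have hb : ∀ a b c : Mem (L0 C), btwB (ordC C f) a.1 b.1 c.1 = true ↔ SOC.Btw s a b c := by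
    intro a b c
    unfold btwB SOC.Btw
    simp only [Bool.or_eq_true, Bool.and_eq_true, decide_eq_true_eq, hidx]
  unfold XC
  rw [cr_eq h a.2 b.2 c.2 d.2]
  unfold crB CrD Cross
  rw [Bool.and_eq_true]
  refine and_congr ?_ ?_
  · simp only [Bool.and_eq_true, decide_eq_true_eq, ne_iff]
  · rw [← hb, ← hb]
    cases btwB (ordC C f) a.1 b.1 c.1 <;> cases btwB (ordC C f) a.1 b.1 d.1 <;> simp

end Pool.Agent.SOY
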